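import Pool.Agent.Helper16.FP.Oper
import Pool.Agent.Helper9.CA.Kak

/-!
# Project FP (MP_0f6f3f_an): a gap for one element of `SL(2, ℂ)` gives exponential decay

`w` a strongly continuous unitary representation of `SL(2, ℂ)` on a Hilbert space. If `re ⟪w g₀ x, x⟫ ≤ k ‖x‖²` for all `SU(2)`-fixed `x`, one `g₀` and one `k < 1`,
then `|⟪w g x, y⟫| ≤ C N(g)^(-ε) ‖x‖ ‖y‖` for all `SU(2)`-fixed `x`, `y`, with `C`, `ε > 0` depending on `g₀`, `k` only.
-/

set_option autoImplicit false
set_option linter.unusedSectionVars false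
set_option linter.style.haveILetI false

open MeasureTheory Topology Measure

namespace Pool.Agent.Helper16.FP

open Pool.Agent.Helper9.CA

variable {F : Type*} [NormedAddCommGroup F] [InnerProductSpace ℂ F] [CompleteSpace F]

/-- a strongly continuous unitary representation of `SL(2, ℂ)` -/
structure URep (w : S2 →* (F →L[ℂ] F)) : Prop where
  isom : ∀ g x y, inner ℂ (w g x) (w g y) = inner ℂ x y
  cont : ∀ x, Continuous fun g => w g x

/-- the fixed vectors of `SU(2)` -/
def fixK (w : S2 →* (F →L[ℂ] F)) : Submodule ℂ F where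
  carrier := {x | ∀ k ∈ KU, w k x = x}
  add_mem' := fun {a b} ha hb k hk => by rw [map_add, ha k hk, hb k hk]
  zero_mem' := fun k _ => map_zero _
  smul_mem' := fun c a ha k hk => by rw [map_smul, ha k hk]

theorem mem_fixK {w : S2 →* (F →L[ℂ] F)} {x : F} : x ∈ fixK w ↔ ∀ k ∈ KU, w k x = x := Iff.rfl

theorem isClosed_fixK (w : S2 →* (F →L[ℂ] F)) : IsClosed (fixK w : Set F) := by
  have : (fixK w : Set F) = ⋂ k ∈ KU, {x | w k x = x} := by
    ext x
    simp [mem_fixK]
  rw [this]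
  exact isClosed_biInter fun k _ => isClosed_eq (w k).continuous continuous_id

instance (w : S2 →* (F →L[ℂ] F)) : CompleteSpace (fixK w) := (isClosed_fixK w).completeSpace_coe

namespace URep

variable {w : S2 →* (F →L[ℂ] F)}

theorem mul_apply (g h : S2) (x : F) : w (g * h) x = w g (w h x) := by rw [map_mul]; rfl

theorem one_apply (x : F) : w 1 x = x := by rw [map_one]; rfl

theorem inv_apply (g : S2) (x : F) : w g⁻¹ (w g x) = x := by rw [← mul_apply, inv_mul_cancel, one_apply]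

theorem adj (h : URep w) (g : S2) (x y : F) : inner ℂ (w g x) y = inner ℂ x (w g⁻¹ y) := by
  rw [← h.isom g x (w g⁻¹ y), ← mul_apply, mul_inv_cancel, one_apply]

theorem norm_apply (h : URep w) (g : S2) (x : F) : ‖w g x‖ = ‖x‖ := by
  have h1 := h.isom g x x
  rw [inner_self_eq_norm_sq_to_K, inner_self_eq_norm_sq_to_K] at h1
  have h2 : ‖w g x‖ ^ 2 = ‖x‖ ^ 2 := by exact_mod_cast h1
  exact (sq_eq_sq₀ (norm_nonneg _) (norm_nonneg _)).1 h2

/-- the coefficient of fixed vectors is biinvariant -/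
theorem coef_left (h : URep w) {x y : F} (hy : y ∈ fixK w) {k : S2} (hk : k ∈ KU) (g : S2) :
    inner ℂ (w (k * g) x) y = inner ℂ (w g x) y := by
  rw [mul_apply, h.adj, hy _ (KU.inv_mem hk)]

theorem coef_right {x y : F} (hx : x ∈ fixK w) {k : S2} (hk : k ∈ KU) (g : S2) :
    inner ℂ (w (g * k) x) y = inner ℂ (w g x) y := by
  rw [mul_apply, hx _ hk]

/-- the projection on the fixed vectors -/
noncomputable def P (w : S2 →* (F →L[ℂ] F)) : F →L[ℂ] F := (fixK w).starProjection

theorem P_mem (x : F) : P w x ∈ fixK w := Submodule.starProjection_apply_mem _ _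

theorem inner_P (x : F) {y : F} (hy : y ∈ fixK w) : inner ℂ (P w x) y = inner ℂ x y := by
  have h1 : inner ℂ (x - P w x) y = 0 := Submodule.starProjection_inner_eq_zero x y hy
  rw [inner_sub_left, sub_eq_zero] at h1
  exact h1.symm

theorem P_sa (x y : F) : inner ℂ (P w x) y = inner ℂ x (P w y) := by
  rw [← inner_P x (P_mem y), ← inner_conj_symm, ← inner_P y (P_mem x), inner_conj_symm]

theorem P_eq {x : F} (hx : x ∈ fixK w) : P w x = x := Submodule.starProjection_eq_self_iff.2 hx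

theorem norm_P_le (x : F) : ‖P w x‖ ≤ ‖x‖ := by
  have := (fixK w).starProjection_norm_le
  calc ‖P w x‖ ≤ ‖P w‖ * ‖x‖ := ContinuousLinearMap.le_opNorm _ _
    _ ≤ 1 * ‖x‖ := by gcongr; exact this
    _ = ‖x‖ := one_mul _

variable [MeasurableSpace S2] [BorelSpace S2]

theorem integrable_orbit (h : URep w) {ν : Measure S2} (hν : HaarOn KU ν) (x : F) : Integrable (fun k => w k x) ν := by
  haveI := hν.prob
  refine Integrable.of_bound (h.cont x).stronglyMeasurable.aestronglyMeasurable ‖x‖ ?_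
  exact Filter.Eventually.of_forall fun k => (h.norm_apply k x).le

theorem inner_int (h : URep w) {ν : Measure S2} (hν : HaarOn KU ν) (x y : F) :
    inner ℂ (∫ k, w k x ∂ν) y = ∫ k, inner ℂ (w k x) y ∂ν := by
  rw [← inner_conj_symm, ← integral_inner (h.integrable_orbit hν x), ← integral_conj]
  refine integral_congr_ae (Filter.Eventually.of_forall fun k => ?_)
  exact inner_conj_symm _ _

/-- `P = ∫ w(k) dk` -/
theorem P_int (h : URep w) {ν : Measure S2} (hν : HaarOn KU ν) (x : F) : P w x = ∫ k, w k x ∂ν := by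
  haveI := hν.prob
  have hfix : (∫ k, w k x ∂ν) ∈ fixK w := by
    intro k hk
    rw [← ContinuousLinearMap.integral_comp_comm _ (h.integrable_orbit hν x)]
    simp only [← mul_apply]
    have h1 : ∫ y, w y x ∂(ν.map fun y => k * y) = ∫ y, w (k * y) x ∂ν :=
      integral_map (measurable_const_mul k).aemeasurable (h.cont x).stronglyMeasurable.aestronglyMeasurable
    rw [← h1, hν.left k hk]
  have h2 : ∀ y ∈ fixK w, inner ℂ (x - ∫ k, w k x ∂ν) y = 0 := by
    intro y hy
    rw [inner_sub_left, sub_eq_zero, h.inner_int hν]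
    have h3 : ∫ k, inner ℂ (w k x) y ∂ν = ∫ _ : S2, inner ℂ x y ∂ν := by
      refine integral_congr_ae ?_
      filter_upwards [hν.supp] with k hk
      rw [h.adj, hy _ (KU.inv_mem hk)]
    rw [h3]
    simp
  exact Submodule.eq_starProjection_of_mem_of_inner_eq_zero hfix h2

theorem inner_P_int (h : URep w) {ν : Measure S2} (hν : HaarOn KU ν) (x y : F) :
    inner ℂ (P w x) y = ∫ k, inner ℂ (w k x) y ∂ν := by
  rw [h.P_int hν, h.inner_int hν]

/-- the operators `B r = sinh r • P w(a_r) P` -/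
noncomputable def B (w : S2 →* (F →L[ℂ] F)) (r : ℝ) : F →L[ℂ] F := (Real.sinh r : ℂ) • (P w ∘L (w (aR r) ∘L P w))

omit [MeasurableSpace S2] [BorelSpace S2] in
theorem inner_B (r : ℝ) (x y : F) : inner ℂ (B w r x) y = (Real.sinh r : ℂ) * inner ℂ (w (aR r) (P w x)) (P w y) := by
  show inner ℂ ((Real.sinh r : ℂ) • (P w (w (aR r) (P w x)))) y = _
  rw [inner_smul_left, Complex.conj_ofReal, P_sa]

omit [MeasurableSpace S2] [BorelSpace S2] in
theorem coef_neg (h : URep w) {x y : F} (hx : x ∈ fixK w) (hy : y ∈ fixK w) (r : ℝ) :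
    inner ℂ (w (aR (-r)) x) y = inner ℂ (w (aR r) x) y := by
  have hw : ofCol 0 1 (by simp) ∈ KU := ofCol_mem _ _ _
  rw [aR_weyl, coef_right hx hw, h.coef_left hy (KU.inv_mem hw)]

omit [MeasurableSpace S2] [BorelSpace S2] in
theorem inner_B_neg (h : URep w) (r : ℝ) (x y : F) : inner ℂ (B w (-r) x) y = -inner ℂ (B w r x) y := by
  rw [inner_B, inner_B, h.coef_neg (P_mem x) (P_mem y), Real.sinh_neg]
  push_cast
  ring

omit [MeasurableSpace S2] [BorelSpace S2] in
theorem B_neg (h : URep w) (r : ℝ) : B w (-r) = -B w r := by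
  refine ContinuousLinearMap.ext fun x => ext_inner_right ℂ fun y => ?_
  rw [h.inner_B_neg, _root_.neg_apply, inner_neg_left]

omit [MeasurableSpace S2] [BorelSpace S2] in
theorem cont_B (h : URep w) (x y : F) : Continuous fun r => inner ℂ (B w r x) y := by
  simp only [inner_B]
  refine Continuous.mul (Complex.continuous_ofReal.comp Real.continuous_sinh) ?_
  exact ((h.cont _).comp continuous_aR).inner continuous_const

omit [MeasurableSpace S2] [BorelSpace S2] in
theorem integral_symm' (h : URep w) (x y : F) (a b : ℝ) :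
    ∫ t in (-a)..(-b), inner ℂ (B w t x) y = ∫ t in a..b, inner ℂ (B w t x) y := by
  have h1 := intervalIntegral.integral_comp_neg (a := a) (b := b) (fun t => inner ℂ (B w t x) y)
  simp only [h.inner_B_neg, intervalIntegral.integral_neg] at h1
  rw [intervalIntegral.integral_symm (-a) (-b)] at h1
  exact (neg_injective h1).symm

theorem fe_pos (h : URep w) {ν : Measure S2} (hν : HaarOn KU ν) {r s : ℝ} (hr : 0 ≤ r) (hs : 0 ≤ s) (x y : F) :
    inner ℂ (B w r (B w s x)) y = (1 / 2) * ∫ t in (r - s)..(r + s), inner ℂ (B w t x) y := by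
  have h1 := product_formula hν (F := fun g => inner ℂ (w g (P w x)) (P w y))
    ((h.cont _).inner continuous_const) (fun k hk g => h.coef_left (P_mem y) hk g)
    (fun k hk g => coef_right (P_mem x) hk g) r s hr hs
  have h2 : ∫ k, inner ℂ (w (aR r * k * aR s) (P w x)) (P w y) ∂ν = inner ℂ (w (aR r) (P w (w (aR s) (P w x)))) (P w y) := by
    rw [h.adj, h.inner_P_int hν]
    refine integral_congr_ae (Filter.Eventually.of_forall fun k => ?_)
    simp only
    rw [mul_apply, mul_apply, h.adj]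
  have h3 : inner ℂ (B w r (B w s x)) y = (Real.sinh r : ℂ) * (Real.sinh s : ℂ) *
      inner ℂ (w (aR r) (P w (w (aR s) (P w x)))) (P w y) := by
    rw [inner_B]
    have e : P w (B w s x) = (Real.sinh s : ℂ) • P w (w (aR s) (P w x)) := by
      show P w ((Real.sinh s : ℂ) • (P w (w (aR s) (P w x)))) = _
      rw [map_smul, P_eq (P_mem _)]
    rw [e, map_smul, inner_smul_left, Complex.conj_ofReal]
    ring
  have h4 : ∫ t in (|r - s|)..(r + s), (Real.sinh t : ℂ) * inner ℂ (w (aR t) (P w x)) (P w y) =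
      ∫ t in (r - s)..(r + s), inner ℂ (B w t x) y := by
    simp only [← inner_B]
    rcases abs_choice (r - s) with h5 | h5
    · rw [h5]
    · rw [h5]
      have hi : ∀ a b : ℝ, IntervalIntegrable (fun t => inner ℂ (B w t x) y) volume a b :=
        fun a b => (h.cont_B x y).intervalIntegrable _ _
      rw [← intervalIntegral.integral_add_adjacent_intervals (hi (r - s) (-(r - s))) (hi (-(r - s)) (r + s))]
      have h6 := h.integral_symm' x y (r - s) (-(r - s))
      rw [neg_neg, intervalIntegral.integral_symm] at h6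
      have h7 : ∫ t in (r - s)..(-(r - s)), inner ℂ (B w t x) y = 0 := by
        have := self_eq_neg.1 h6.symm
        exact this
      rw [h7, zero_add]
  rw [h3, ← h2]
  rw [h4] at h1
  rw [← h1]
  ring

theorem fe (h : URep w) {ν : Measure S2} (hν : HaarOn KU ν) (r s : ℝ) (x y : F) :
    inner ℂ (B w r (B w s x)) y = (1 / 2) * ∫ t in (r - s)..(r + s), inner ℂ (B w t x) y := by
  -- first `s ≥ 0`
  have key : ∀ r s : ℝ, 0 ≤ r → inner ℂ (B w r (B w s x)) y = (1 / 2) * ∫ t in (r - s)..(r + s), inner ℂ (B w t x) y := by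
    intro r s hr
    rcases le_total 0 s with hs | hs
    · exact h.fe_pos hν hr hs x y
    · have h1 := h.fe_pos hν hr (neg_nonneg.2 hs) x y
      rw [h.B_neg, _root_.neg_apply, map_neg, inner_neg_left, sub_neg_eq_add, ← sub_eq_add_neg,
        intervalIntegral.integral_symm, mul_neg] at h1
      exact neg_injective h1
  rcases le_total 0 r with hr | hr
  · exact key r s hr
  · have h1 := key (-r) s (neg_nonneg.2 hr)
    rw [h.B_neg, _root_.neg_apply, inner_neg_left] at h1
    have h2 := h.integral_symm' x y (r + s) (r - s)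
    rw [show -(r + s) = -r - s by ring, show -(r - s) = -r + s by ring] at h2
    rw [h2, intervalIntegral.integral_symm, mul_neg] at h1
    exact neg_injective h1

theorem ofe (h : URep w) {ν : Measure S2} (hν : HaarOn KU ν) : OFE (B w) where
  sa := by
    intro r
    rw [ContinuousLinearMap.isSelfAdjoint_iff_isSymmetric]
    intro x y
    show inner ℂ (B w r x) y = inner ℂ x (B w r y)
    rw [← inner_conj_symm x, inner_B, inner_B, map_mul, Complex.conj_ofReal, inner_conj_symm,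
      ← h.coef_neg (P_mem x) (P_mem y), h.adj, aR_neg, inv_inv]
  bdd := by
    intro r
    have h1 : |Real.sinh r| = Real.sinh |r| := Real.abs_sinh r
    refine ContinuousLinearMap.opNorm_le_bound _ (by rw [← h1]; positivity) fun x => ?_
    show ‖(Real.sinh r : ℂ) • (P w (w (aR r) (P w x)))‖ ≤ _
    rw [norm_smul, Complex.norm_real, Real.norm_eq_abs, h1]
    gcongr
    exact (norm_P_le _).trans ((h.norm_apply _ _).le.trans (norm_P_le _))
  cont := h.cont_B
  fe := h.fe hν

end URep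

theorem div_sinh_le {L t : ℝ} (hL0 : 0 ≤ L) (hL : L < 1) (ht : 0 < t) :
    t * Real.exp (L * t) / Real.sinh t ≤ 4 / (1 - L) * Real.exp (-((1 - L) * t / 2)) := by
  have hs : 0 < Real.sinh t := Real.sinh_pos_iff.2 ht
  have hd : 0 < 1 - L := sub_pos.2 hL
  rw [div_le_iff₀ hs]
  -- `t ≤ (1 + 2t) e^{-t} sinh t`
  have h1 : t ≤ (1 + 2 * t) * Real.exp (-t) * Real.sinh t := by
    have h2 : Real.exp (-t) * Real.sinh t = (1 - Real.exp (-(2 * t))) / 2 := by
      rw [Real.sinh_eq, mul_div_assoc', mul_sub, ← Real.exp_add, ← Real.exp_add]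
      congr 2
      · rw [neg_add_cancel, Real.exp_zero]
      · ring_nf
    have h3 : Real.exp (-(2 * t)) ≤ 1 / (1 + 2 * t) := by
      rw [Real.exp_neg, ← one_div]
      refine one_div_le_one_div_of_le (by positivity) ?_
      linarith [Real.add_one_le_exp (2 * t)]
    have h4 : (1 + 2 * t) * Real.exp (-t) * Real.sinh t = (1 + 2 * t) * ((1 - Real.exp (-(2 * t))) / 2) := by
      rw [mul_assoc, h2]
    rw [h4]
    have h5 : (1 + 2 * t) * Real.exp (-(2 * t)) ≤ 1 := by
      calc (1 + 2 * t) * Real.exp (-(2 * t)) ≤ (1 + 2 * t) * (1 / (1 + 2 * t)) := by gcongr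
        _ = 1 := by field_simp
    nlinarith
  -- `(1 + 2t) e^{-(1-L)t/2} ≤ 4 / (1 - L)`
  have h6 : (1 + 2 * t) * Real.exp (-((1 - L) * t / 2)) ≤ 4 / (1 - L) := by
    rw [Real.exp_neg, ← div_eq_mul_inv, div_le_div_iff₀ (Real.exp_pos _) hd]
    have h7 := Real.add_one_le_exp ((1 - L) * t / 2)
    nlinarith
  have e1 : Real.exp (-t) * Real.exp (L * t) = Real.exp (-((1 - L) * t / 2)) * Real.exp (-((1 - L) * t / 2)) := by
    rw [← Real.exp_add, ← Real.exp_add]
    congr 1
    ring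
  calc t * Real.exp (L * t) ≤ ((1 + 2 * t) * Real.exp (-t) * Real.sinh t) * Real.exp (L * t) := by gcongr
    _ = (1 + 2 * t) * (Real.exp (-t) * Real.exp (L * t)) * Real.sinh t := by ring
    _ = ((1 + 2 * t) * Real.exp (-((1 - L) * t / 2))) * Real.exp (-((1 - L) * t / 2)) * Real.sinh t := by rw [e1]; ring
    _ ≤ 4 / (1 - L) * Real.exp (-((1 - L) * t / 2)) * Real.sinh t := by gcongr

/-- **A gap for one element gives exponential decay**, uniformly in the representation. -/
theorem decay (g₀ : S2) {k : ℝ} (hk : k < 1) : ∃ C ε : ℝ, 0 < C ∧ 0 < ε ∧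
    ∀ (F : Type*) [NormedAddCommGroup F] [InnerProductSpace ℂ F] [CompleteSpace F] (w : S2 →* (F →L[ℂ] F)), URep w →
      (∀ x ∈ fixK w, (inner ℂ (w g₀ x) x).re ≤ k * ‖x‖ ^ 2) → ∀ g, ∀ x ∈ fixK w, ∀ y ∈ fixK w,
        ‖inner ℂ (w g x) y‖ ≤ C * (N2 g : ℝ) ^ (-ε) * ‖x‖ * ‖y‖ := by
  obtain ⟨k₁, hk₁, k₂, hk₂, r₀, hr₀, hg₀, -⟩ := cartan g₀
  have hk' : max k 0 < 1 := max_lt hk one_pos
  have hk0 : 0 ≤ max k 0 := le_max_right _ _
  -- a uniform bound for `a_t`
  obtain ⟨L, hL0, hL1, hgr⟩ : ∃ L : ℝ, 0 ≤ L ∧ L < 1 ∧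
      ∀ (F : Type _) [NormedAddCommGroup F] [InnerProductSpace ℂ F] [CompleteSpace F] (w : S2 →* (F →L[ℂ] F)), URep w →
      (∀ x ∈ fixK w, (inner ℂ (w g₀ x) x).re ≤ k * ‖x‖ ^ 2) → ∀ t, 0 ≤ t → ∀ x ∈ fixK w, ∀ y ∈ fixK w,
        ‖inner ℂ (w (aR t) x) y‖ ≤ 4 / (1 - L) * Real.exp (-((1 - L) * t / 2)) * ‖x‖ * ‖y‖ := by
    letI : MeasurableSpace S2 := borel S2
    haveI : BorelSpace S2 := ⟨rfl⟩
    obtain ⟨ν, hν⟩ := exists_haarOn KU isCompact_KU
    have hcoef : ∀ (F : Type _) [NormedAddCommGroup F] [InnerProductSpace ℂ F] [CompleteSpace F] (w : S2 →* (F →L[ℂ] F)),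
        URep w → ∀ x ∈ fixK w, inner ℂ (w g₀ x) x = inner ℂ (w (aR r₀) x) x := by
      intro F _ _ _ w h x hx
      rw [hg₀, URep.coef_right hx hk₂, h.coef_left hx hk₁]
    rcases hr₀.eq_or_lt with h0 | h0
    · refine ⟨0, le_rfl, one_pos, fun F _ _ _ w h hgap t ht x hx y hy => ?_⟩
      have h1 := hgap x hx
      rw [hcoef F w h x hx, ← h0, aR_zero, URep.one_apply, inner_self_eq_norm_sq_to_K] at h1
      have h2 : (((‖x‖ : ℂ)) ^ 2).re = ‖x‖ ^ 2 := by rw [← Complex.ofReal_pow, Complex.ofReal_re]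
      have h3 : ‖x‖ ^ 2 ≤ k * ‖x‖ ^ 2 := h2.symm.le.trans h1
      have h4 : ‖x‖ = 0 := by
        by_contra h5
        have : 0 < ‖x‖ ^ 2 := by positivity
        nlinarith
      rw [norm_eq_zero.1 h4, map_zero, inner_zero_left, norm_zero]
      simp
    · obtain ⟨L, hL0, hL1, hgr⟩ := OFE.growth h0 hk'
      refine ⟨L, hL0, hL1, fun F _ _ _ w h hgap t ht x hx y hy => ?_⟩
      have hd : 0 < 1 - L := sub_pos.2 hL1
      rcases ht.eq_or_lt with ht0 | ht0
      · rw [← ht0, aR_zero, URep.one_apply, mul_zero, zero_div, neg_zero, Real.exp_zero, mul_one]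
        have h1 : 1 ≤ 4 / (1 - L) := by rw [le_div_iff₀ hd]; linarith
        calc ‖inner ℂ x y‖ ≤ ‖x‖ * ‖y‖ := norm_inner_le_norm _ _
          _ = 1 * ‖x‖ * ‖y‖ := by ring
          _ ≤ 4 / (1 - L) * ‖x‖ * ‖y‖ := by gcongr
      · have h1 := hgr F (URep.B w) (h.ofe hν) (fun x => by
          rw [URep.inner_B]
          have h2 := hgap (URep.P w x) (URep.P_mem x)
          rw [hcoef F w h _ (URep.P_mem x)] at h2
          rw [Complex.re_ofReal_mul]
          have h3 : 0 ≤ Real.sinh r₀ := Real.sinh_nonneg_iff.2 hr₀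
          have h4 : k * ‖URep.P w x‖ ^ 2 ≤ max k 0 * ‖x‖ ^ 2 := by
            calc k * ‖URep.P w x‖ ^ 2 ≤ max k 0 * ‖URep.P w x‖ ^ 2 := by gcongr; exact le_max_left _ _
              _ ≤ max k 0 * ‖x‖ ^ 2 := by gcongr; exact URep.norm_P_le x
          calc Real.sinh r₀ * (inner ℂ (w (aR r₀) (URep.P w x)) (URep.P w x)).re ≤ Real.sinh r₀ * (max k 0 * ‖x‖ ^ 2) := by
                gcongr; exact h2.trans h4
            _ = max k 0 * Real.sinh r₀ * ‖x‖ ^ 2 := by ring) t ht
        have hs : 0 < Real.sinh t := Real.sinh_pos_iff.2 ht0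
        have h2 : inner ℂ (URep.B w t x) y = (Real.sinh t : ℂ) * inner ℂ (w (aR t) x) y := by
          rw [URep.inner_B, URep.P_eq hx, URep.P_eq hy]
        have h3 : Real.sinh t * ‖inner ℂ (w (aR t) x) y‖ ≤ t * Real.exp (L * t) * (‖x‖ * ‖y‖) := by
          have h4 : ‖inner ℂ (URep.B w t x) y‖ = Real.sinh t * ‖inner ℂ (w (aR t) x) y‖ := by
            rw [h2, norm_mul, Complex.norm_real, Real.norm_of_nonneg hs.le]
          rw [← h4]
          calc ‖inner ℂ (URep.B w t x) y‖ ≤ ‖URep.B w t x‖ * ‖y‖ := norm_inner_le_norm _ _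
            _ ≤ (t * Real.exp (L * t) * ‖x‖) * ‖y‖ := by
              gcongr
              exact (ContinuousLinearMap.le_opNorm _ _).trans (by gcongr)
            _ = t * Real.exp (L * t) * (‖x‖ * ‖y‖) := by ring
        have h5 : ‖inner ℂ (w (aR t) x) y‖ ≤ t * Real.exp (L * t) / Real.sinh t * (‖x‖ * ‖y‖) := by
          rw [div_mul_eq_mul_div, le_div_iff₀ hs]
          linarith
        calc ‖inner ℂ (w (aR t) x) y‖ ≤ t * Real.exp (L * t) / Real.sinh t * (‖x‖ * ‖y‖) := h5
          _ ≤ 4 / (1 - L) * Real.exp (-((1 - L) * t / 2)) * (‖x‖ * ‖y‖) := by gcongr; exact div_sinh_le hL0 hL1 ht0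
          _ = _ := by ring
  have hd : 0 < 1 - L := sub_pos.2 hL1
  refine ⟨8 / (1 - L), 1 - L, by positivity, hd, fun F _ _ _ w h hgap g x hx y hy => ?_⟩
  obtain ⟨k₃, hk₃, k₄, hk₄, t, ht, hg, hn⟩ := cartan g
  have h1 : inner ℂ (w g x) y = inner ℂ (w (aR t) x) y := by
    rw [hg, URep.coef_right hx hk₄, h.coef_left hy hk₃]
  rw [h1]
  refine (hgr F w h hgap t ht x hx y hy).trans ?_
  -- the norm
  have hN1 : (1 : ℝ) ≤ N2 g := by exact_mod_cast N2_ge g
  have hNsq : (N2 g : ℝ) ^ 2 ≤ 2 * Real.exp t := by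
    rw [N2_sq, hn, Real.cosh_eq]
    have : Real.exp (-t) ≤ Real.exp t := Real.exp_le_exp.2 (by linarith)
    linarith
  have hN : (N2 g : ℝ) ^ (1 - L) ≤ 2 * Real.exp ((1 - L) * t / 2) := by
    have e1 : (N2 g : ℝ) ^ (1 - L) = ((N2 g : ℝ) ^ 2) ^ ((1 - L) / 2) := by
      rw [← Real.rpow_natCast, ← Real.rpow_mul (by positivity)]
      congr 1
      push_cast
      ring
    have e2 : Real.exp ((1 - L) * t / 2) = Real.exp t ^ ((1 - L) / 2) := by
      rw [← Real.exp_mul]
      congr 1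
      ring
    rw [e1, e2]
    calc ((N2 g : ℝ) ^ 2) ^ ((1 - L) / 2) ≤ (2 * Real.exp t) ^ ((1 - L) / 2) := by gcongr
      _ = 2 ^ ((1 - L) / 2) * Real.exp t ^ ((1 - L) / 2) := Real.mul_rpow (by norm_num) (Real.exp_pos _).le
      _ ≤ 2 ^ (1 : ℝ) * Real.exp t ^ ((1 - L) / 2) := by
        gcongr
        · norm_num
        · linarith
      _ = _ := by rw [Real.rpow_one]
  have hN' : Real.exp (-((1 - L) * t / 2)) ≤ 2 * (N2 g : ℝ) ^ (-(1 - L)) := by
    rw [Real.exp_neg, Real.rpow_neg (by positivity), ← div_eq_mul_inv, ← one_div,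
      div_le_div_iff₀ (Real.exp_pos _) (by positivity), one_mul]
    exact hN
  calc 4 / (1 - L) * Real.exp (-((1 - L) * t / 2)) * ‖x‖ * ‖y‖ ≤
        4 / (1 - L) * (2 * (N2 g : ℝ) ^ (-(1 - L))) * ‖x‖ * ‖y‖ := by gcongr
    _ = 8 / (1 - L) * (N2 g : ℝ) ^ (-(1 - L)) * ‖x‖ * ‖y‖ := by ring

end Pool.Agent.Helper16.FP
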