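import Pool.Agent.Helper16.FP.Scalar

/-!
# Project FP (MP_0f6f3f_an): decay from one operator

`B r` selfadjoint with `B r * B s = ½ ∫_{r-s}^{r+s} B t dt` and `‖B r‖ ≤ sinh |r|`. If `‖B r₀‖ ≤ k sinh r₀` for one `r₀ > 0`
and `k < 1` then `‖B r‖ ≤ r exp (L₀ r)` for all `r ≥ 0`, with `L₀ < 1` depending on `r₀`, `k` only.
-/

set_option autoImplicit false
set_option linter.unusedSectionVars false
set_option linter.style.haveILetI false

open MeasureTheory Topology

namespace Pool.Agent.Helper16.FP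

variable {F : Type*} [NormedAddCommGroup F] [InnerProductSpace ℂ F] [CompleteSpace F]

theorem conj_int (f : ℝ → ℂ) (a b : ℝ) : starRingEnd ℂ (∫ t in a..b, f t) = ∫ t in a..b, starRingEnd ℂ (f t) := by
  simp only [intervalIntegral, map_sub, integral_conj]

/-- the functional equation for operators, in weak form -/
structure OFE (B : ℝ → F →L[ℂ] F) : Prop where
  sa : ∀ r, IsSelfAdjoint (B r)
  bdd : ∀ r, ‖B r‖ ≤ Real.sinh |r|
  cont : ∀ x y, Continuous fun r => inner ℂ (B r x) y
  fe : ∀ r s x y, inner ℂ (B r (B s x)) y = (1 / 2) * ∫ t in (r - s)..(r + s), inner ℂ (B t x) y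

namespace OFE

variable {B : ℝ → F →L[ℂ] F}

theorem inner_sa (h : OFE B) (r : ℝ) (x y : F) : inner ℂ (B r x) y = inner ℂ x (B r y) := by
  have := ContinuousLinearMap.adjoint_inner_right (B r) x y
  rw [← this, (h.sa r).adjoint_eq]

theorem comm (h : OFE B) (r s : ℝ) : B r * B s = B s * B r := by
  refine ContinuousLinearMap.ext fun x => ext_inner_right ℂ fun y => ?_
  show inner ℂ (B r (B s x)) y = inner ℂ (B s (B r x)) y
  have h1 : inner ℂ (B s (B r x)) y = starRingEnd ℂ (inner ℂ (B r (B s y)) x) := by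
    rw [h.inner_sa, h.inner_sa, inner_conj_symm]
  rw [h1, h.fe, h.fe, map_mul, conj_int]
  congr 1
  · simp only [map_div₀, map_one, map_ofNat]
  · refine intervalIntegral.integral_congr fun t _ => ?_
    show inner ℂ (B t x) y = starRingEnd ℂ (inner ℂ (B t y) x)
    rw [inner_conj_symm, h.inner_sa]

theorem lip (h : OFE B) {R : ℝ} (x y : F) {a b : ℝ} (ha : |a| ≤ R) (hb : |b| ≤ R) :
    ‖∫ t in a..b, inner ℂ (B t x) y‖ ≤ Real.sinh R * ‖x‖ * ‖y‖ * |b - a| := by
  refine intervalIntegral.norm_integral_le_of_norm_le_const fun t ht => ?_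
  have h1 : |t| ≤ R := by
    have := Set.uIoc_subset_uIcc ht
    have h2 := abs_le.1 ha
    have h3 := abs_le.1 hb
    rw [Set.mem_uIcc] at this
    rw [abs_le]
    rcases this with h | h <;> constructor <;> linarith
  calc ‖inner ℂ (B t x) y‖ ≤ ‖B t x‖ * ‖y‖ := norm_inner_le_norm _ _
    _ ≤ (Real.sinh R * ‖x‖) * ‖y‖ := by
      gcongr
      refine (ContinuousLinearMap.le_opNorm _ _).trans ?_
      gcongr
      exact (h.bdd t).trans (Real.sinh_le_sinh.2 h1)

theorem norm_sub_sq (h : OFE B) {R u v : ℝ} (hu : |u| ≤ R) (hv : |v| ≤ R) :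
    ‖B u - B v‖ ^ 2 ≤ 2 * Real.sinh (2 * R) * |u - v| := by
  have hsa : IsSelfAdjoint (B u - B v) := (h.sa u).sub (h.sa v)
  have hR : 0 ≤ R := (abs_nonneg _).trans hu
  have h1 : ‖B u - B v‖ ^ 2 = ‖(B u - B v) * (B u - B v)‖ := by
    have := CStarRing.norm_star_mul_self (x := B u - B v)
    rw [hsa.star_eq] at this
    rw [this, sq]
  have hint : ∀ x y : F, ∀ a b : ℝ, IntervalIntegrable (fun t => inner ℂ (B t x) y) volume a b :=
    fun x y a b => (h.cont x y).intervalIntegrable _ _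
  have h2 : ∀ x y : F, ‖inner ℂ (((B u - B v) * (B u - B v)) x) y‖ ≤ (2 * Real.sinh (2 * R) * |u - v|) * ‖x‖ * ‖y‖ := by
    intro x y
    have e1 : ((B u - B v) * (B u - B v)) x = B u (B u x) - B u (B v x) - (B v (B u x) - B v (B v x)) := by
      show (B u - B v) ((B u - B v) x) = _
      simp only [sub_apply, map_sub]
      abel
    have e2 : inner ℂ (((B u - B v) * (B u - B v)) x) y =
        (1 / 2) * ((∫ t in (u + v)..(u + u), inner ℂ (B t x) y) + (∫ t in (0)..(u - v), inner ℂ (B t x) y)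
          - ((∫ t in (v + v)..(v + u), inner ℂ (B t x) y) - (∫ t in (0)..(v - u), inner ℂ (B t x) y))) := by
      rw [e1]
      simp only [inner_sub_left, h.fe, sub_self]
      have i1 := intervalIntegral.integral_add_adjacent_intervals (hint x y (u - v) (u + v)) (hint x y (u + v) (u + u))
      have i2 := intervalIntegral.integral_add_adjacent_intervals (hint x y 0 (u - v)) (hint x y (u - v) (u + u))
      have i3 := intervalIntegral.integral_add_adjacent_intervals (hint x y (v - u) (v + u)) (hint x y (v + u) (v + v))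
      have i4 := intervalIntegral.integral_add_adjacent_intervals (hint x y 0 (v - u)) (hint x y (v - u) (v + v))
      have i5 := intervalIntegral.integral_symm (μ := volume) (f := fun t => inner ℂ (B t x) y) (v + v) (v + u)
      rw [← i2, ← i1, ← i4, ← i3, i5]
      ring
    have a2R : ∀ z w : ℝ, |z| ≤ R → |w| ≤ R → |z + w| ≤ 2 * R := fun z w hz hw =>
      (abs_add_le z w).trans (by linarith)
    have a2R' : ∀ z w : ℝ, |z| ≤ R → |w| ≤ R → |z - w| ≤ 2 * R := fun z w hz hw =>
      (abs_sub z w).trans (by linarith)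
    have a0 : |(0 : ℝ)| ≤ 2 * R := by rw [abs_zero]; linarith
    have b1 := h.lip x y (a2R u v hu hv) (a2R u u hu hu)
    have b2 := h.lip x y a0 (a2R' u v hu hv)
    have b3 := h.lip x y (a2R v v hv hv) (a2R v u hv hu)
    have b4 := h.lip x y a0 (a2R' v u hv hu)
    rw [show u + u - (u + v) = u - v by ring] at b1
    rw [sub_zero] at b2 b4
    rw [show v + u - (v + v) = u - v by ring] at b3
    rw [abs_sub_comm v u] at b4
    rw [e2, norm_mul]
    have n1 : ‖(1 / 2 : ℂ)‖ = 1 / 2 := by norm_num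
    rw [n1]
    have n2 := norm_sub_le ((∫ t in (u + v)..(u + u), inner ℂ (B t x) y) + (∫ t in (0)..(u - v), inner ℂ (B t x) y))
      ((∫ t in (v + v)..(v + u), inner ℂ (B t x) y) - (∫ t in (0)..(v - u), inner ℂ (B t x) y))
    have n3 := norm_add_le (∫ t in (u + v)..(u + u), inner ℂ (B t x) y) (∫ t in (0)..(u - v), inner ℂ (B t x) y)
    have n4 := norm_sub_le (∫ t in (v + v)..(v + u), inner ℂ (B t x) y) (∫ t in (0)..(v - u), inner ℂ (B t x) y)
    nlinarith
  rw [h1]
  have hC : 0 ≤ 2 * Real.sinh (2 * R) * |u - v| := by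
    have : 0 ≤ Real.sinh (2 * R) := Real.sinh_nonneg_iff.2 (by linarith)
    positivity
  refine ContinuousLinearMap.opNorm_le_bound _ hC fun x => ?_
  have h3 := h2 x (((B u - B v) * (B u - B v)) x)
  rw [inner_self_eq_norm_sq_to_K] at h3
  rcases (norm_nonneg (((B u - B v) * (B u - B v)) x)).eq_or_lt with h4 | h4
  · rw [← h4]; positivity
  · have h5 : ‖((‖((B u - B v) * (B u - B v)) x‖ : ℂ)) ^ 2‖ = ‖((B u - B v) * (B u - B v)) x‖ * ‖((B u - B v) * (B u - B v)) x‖ := by
      rw [norm_pow, Complex.norm_real, norm_norm, sq]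
    have h6 : ‖((B u - B v) * (B u - B v)) x‖ * ‖((B u - B v) * (B u - B v)) x‖ ≤
        (2 * Real.sinh (2 * R) * |u - v| * ‖x‖) * ‖((B u - B v) * (B u - B v)) x‖ := by
      rw [← h5]; exact h3
    exact le_of_mul_le_mul_right h6 h4

theorem continuous (h : OFE B) : Continuous B := by
  rw [Metric.continuous_iff]
  intro u ε hε
  set R := |u| + 1 with hR
  have hs : 0 < Real.sinh (2 * R) := Real.sinh_pos_iff.2 (by positivity)
  refine ⟨min 1 (ε ^ 2 / (4 * Real.sinh (2 * R))), by positivity, fun v hv => ?_⟩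
  rw [Real.dist_eq] at hv
  have hv1 := hv.trans_le (min_le_left _ _)
  have hv2 := hv.trans_le (min_le_right _ _)
  have hvR : |v| ≤ R := by
    have := abs_sub_abs_le_abs_sub v u
    linarith
  have huR : |u| ≤ R := by linarith
  have h1 := h.norm_sub_sq hvR huR
  rw [dist_eq_norm]
  have h2 : 2 * Real.sinh (2 * R) * |v - u| < ε ^ 2 := by
    rw [lt_div_iff₀ (by positivity)] at hv2
    nlinarith [abs_nonneg (v - u)]
  exact lt_of_pow_lt_pow_left₀ 2 hε.le (h1.trans_lt h2)

theorem mul_eq (h : OFE B) (r s : ℝ) : B r * B s = (1 / 2 : ℂ) • ∫ t in (r - s)..(r + s), B t := by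
  refine ContinuousLinearMap.ext fun x => ext_inner_right ℂ fun y => ?_
  show inner ℂ (B r (B s x)) y = _
  rw [h.fe, smul_apply, inner_smul_left]
  have h1 : (∫ t in (r - s)..(r + s), B t) x = ∫ t in (r - s)..(r + s), B t x :=
    ContinuousLinearMap.intervalIntegral_apply (h.continuous.intervalIntegrable _ _) x
  have h2 : inner ℂ (∫ t in (r - s)..(r + s), B t x) y = ∫ t in (r - s)..(r + s), inner ℂ (B t x) y := by
    have hi : IntervalIntegrable (fun t => B t x) volume (r - s) (r + s) :=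
      (h.continuous.clm_apply continuous_const).intervalIntegrable _ _
    have h3 := ((innerSL ℂ y).intervalIntegral_comp_comm hi)
    simp only [innerSL_apply_apply] at h3
    rw [← inner_conj_symm, ← h3, conj_int]
    refine intervalIntegral.integral_congr fun t _ => ?_
    show starRingEnd ℂ (inner ℂ y (B t x)) = inner ℂ (B t x) y
    rw [inner_conj_symm]
  rw [h1, h2]
  simp only [map_div₀, map_one, map_ofNat]

/-- the commutative C*-algebra generated by `B` -/
noncomputable def alg (B : ℝ → F →L[ℂ] F) : StarSubalgebra ℂ (F →L[ℂ] F) :=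
  (StarAlgebra.adjoin ℂ (Set.range B)).topologicalClosure

instance (B : ℝ → F →L[ℂ] F) : IsClosed (alg B : Set (F →L[ℂ] F)) :=
  (StarAlgebra.adjoin ℂ (Set.range B)).isClosed_topologicalClosure

theorem mem_alg (B : ℝ → F →L[ℂ] F) (r : ℝ) : B r ∈ alg B :=
  (StarSubalgebra.le_topologicalClosure _) (StarAlgebra.subset_adjoin ℂ _ ⟨r, rfl⟩)

theorem alg_comm (h : OFE B) (a b : alg B) : a * b = b * a := by
  have hs : ∀ s ∈ Set.range B, star s ∈ Set.range B := by
    rintro _ ⟨r, rfl⟩
    exact ⟨r, (h.sa r).star_eq.symm⟩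
  have hle : alg B ≤ StarSubalgebra.centralizer ℂ ((StarSubalgebra.centralizer ℂ (Set.range B)) : Set (F →L[ℂ] F)) := by
    refine StarSubalgebra.topologicalClosure_minimal (StarAlgebra.adjoin_le_centralizer_centralizer _ _) ?_
    rw [StarSubalgebra.coe_centralizer]
    exact Set.isClosed_centralizer _
  have h1 : Set.range B ⊆ (StarSubalgebra.centralizer ℂ (Set.range B) : Set (F →L[ℂ] F)) := by
    rintro _ ⟨r, rfl⟩
    rw [SetLike.mem_coe, StarSubalgebra.mem_centralizer_iff]
    rintro _ ⟨s, rfl⟩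
    rw [(h.sa s).star_eq]
    exact ⟨h.comm s r, h.comm s r⟩
  have h2 := hle.trans (StarSubalgebra.centralizer_le (R := ℂ) _ _ h1)
  have ha := h2 a.2
  have hb := hle b.2
  rw [StarSubalgebra.mem_centralizer_iff] at hb
  exact Subtype.ext (hb a.1 ha).1

theorem re_le_of_mem_spectrum {T : F →L[ℂ] F} {κ : ℝ} (hT : ∀ x, (inner ℂ (T x) x).re ≤ κ * ‖x‖ ^ 2) {z : ℂ}
    (hz : z ∈ spectrum ℂ T) : z.re ≤ κ := by
  by_contra hlt
  push Not at hlt
  refine hz ?_
  refine ContinuousLinearMap.isUnit_of_forall_le_norm_inner_map _ (c := ⟨z.re - κ, (sub_pos.2 hlt).le⟩)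
    (sub_pos.2 hlt) fun x => ?_
  have h1 : inner ℂ ((algebraMap ℂ (F →L[ℂ] F) z - T) x) x = starRingEnd ℂ z * ‖x‖ ^ 2 - inner ℂ (T x) x := by
    rw [sub_apply, inner_sub_left, Algebra.algebraMap_eq_smul_one, smul_apply, inner_smul_left,
      one_apply_eq_self, inner_self_eq_norm_sq_to_K]
    rfl
  rw [h1]
  refine le_trans ?_ (Complex.re_le_norm _)
  have h2 : (starRingEnd ℂ z * (‖x‖ : ℂ) ^ 2 - inner ℂ (T x) x).re = z.re * ‖x‖ ^ 2 - (inner ℂ (T x) x).re := by
    rw [Complex.sub_re, ← Complex.ofReal_pow, Complex.re_mul_ofReal, Complex.conj_re]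
  rw [h2]
  have := hT x
  show ‖x‖ ^ 2 * (z.re - κ) ≤ _
  nlinarith

/-- **decay** -/
theorem growth {r₀ k : ℝ} (hr₀ : 0 < r₀) (hk : k < 1) : ∃ L₀ : ℝ, 0 ≤ L₀ ∧ L₀ < 1 ∧
    ∀ (F : Type*) [NormedAddCommGroup F] [InnerProductSpace ℂ F] [CompleteSpace F] (B : ℝ → F →L[ℂ] F), OFE B →
      (∀ x, (inner ℂ (B r₀ x) x).re ≤ k * Real.sinh r₀ * ‖x‖ ^ 2) → ∀ r, 0 ≤ r → ‖B r‖ ≤ r * Real.exp (L₀ * r) := by
  obtain ⟨L₀, hL0, hL1, hgr⟩ := FP.growth hr₀ hk
  refine ⟨L₀, hL0, hL1, fun F _ _ _ B h hB r hr => ?_⟩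
  letI : CommCStarAlgebra (alg B) := { (inferInstance : CStarAlgebra (alg B)) with mul_comm := h.alg_comm }
  set β : ℝ → alg B := fun t => ⟨B t, mem_alg B t⟩ with hβ
  have hβc : Continuous β := Continuous.subtype_mk h.continuous _
  have hβfe : ∀ r s, β r * β s = (1 / 2 : ℂ) • ∫ t in (r - s)..(r + s), β t := by
    intro r s
    refine Subtype.ext ?_
    have h1 := h.mul_eq r s
    have h2 := ((alg B).toSubalgebra.toSubmodule.subtypeL).intervalIntegral_comp_comm
      (hβc.intervalIntegrable (μ := volume) (r - s) (r + s))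
    have h3 : ((∫ t in (r - s)..(r + s), β t : alg B) : F →L[ℂ] F) = ∫ t in (r - s)..(r + s), B t := h2.symm
    show B r * B s = (1 / 2 : ℂ) • ((∫ t in (r - s)..(r + s), β t : alg B) : F →L[ℂ] F)
    rw [h1, h3]
  have hn : ‖B r‖ = ‖WeakDual.gelfandTransform ℂ (alg B) (β r)‖ :=
    ((gelfandTransform_isometry (alg B)).norm_map_of_map_zero (map_zero _) (β r)).symm
  have hsp : ∀ z ∈ spectrum ℂ (B r₀), z.re ≤ k * Real.sinh r₀ := fun z hz => re_le_of_mem_spectrum hB hz
  rcases subsingleton_or_nontrivial F with hF | hF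
  · have : B r = 0 := Subsingleton.elim _ _
    rw [this, norm_zero]
    positivity
  rw [hn, ContinuousMap.norm_le _ (by positivity)]
  intro φ
  have hreal : ∀ t, φ (β t) = ((φ (β t)).re : ℂ) := by
    intro t
    have h1 : star (β t) = β t := Subtype.ext (h.sa t).star_eq
    have h2 : φ (star (β t)) = star (φ (β t)) := map_star φ (β t)
    rw [h1] at h2
    exact (Complex.conj_eq_iff_re.1 h2.symm).symm
  set b : ℝ → ℝ := fun t => (φ (β t)).re with hb
  have hφc : Continuous fun t => φ (β t) := (map_continuous φ).comp hβc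
  have hFE : FE b := by
    refine ⟨Complex.continuous_re.comp hφc, fun r s => ?_⟩
    have h1 : φ (β r * β s) = (1 / 2 : ℂ) * ∫ t in (r - s)..(r + s), φ (β t) := by
      rw [hβfe, map_smul, smul_eq_mul]
      congr 1
      exact ((WeakDual.toStrongDual (φ : WeakDual ℂ (alg B))).intervalIntegral_comp_comm
        (hβc.intervalIntegrable (μ := volume) (r - s) (r + s))).symm
    rw [map_mul, hreal r, hreal s] at h1
    have h2 : ∫ t in (r - s)..(r + s), φ (β t) = ((∫ t in (r - s)..(r + s), b t : ℝ) : ℂ) := by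
      rw [← intervalIntegral.integral_ofReal]
      exact intervalIntegral.integral_congr fun t _ => hreal t
    rw [h2] at h1
    have h3 := congrArg Complex.re h1
    simpa using h3
  have hbd : ∀ t, 0 ≤ t → |b t| ≤ Real.sinh t := by
    intro t ht
    have h1 : ‖φ (β t)‖ ≤ ‖B t‖ := by
      refine spectrum.norm_le_norm_of_mem (𝕜 := ℂ) ?_
      have h1 := AlgHom.apply_mem_spectrum φ (β t)
      rw [StarSubalgebra.spectrum_eq] at h1
      exact h1
    have h2 : ‖B t‖ ≤ Real.sinh t := by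
      have := h.bdd t
      rwa [abs_of_nonneg ht] at this
    exact (Complex.abs_re_le_norm _).trans (h1.trans h2)
  have hbr₀ : b r₀ ≤ k * Real.sinh r₀ := by
    refine hsp (φ (β r₀)) ?_
    have h1 := AlgHom.apply_mem_spectrum φ (β r₀)
    rw [StarSubalgebra.spectrum_eq] at h1
    exact h1
  have := hgr b hFE hbd hbr₀ r hr
  show ‖φ (β r)‖ ≤ _
  rw [hreal r, Complex.norm_real]
  exact this

end OFE

end Pool.Agent.Helper16.FP
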