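import Pool.Agent.Helper16.FP.Vac2

/-!
# Project FP, block POS: limits of positive maps

`exists_wl`: weak limits of bounded sequences of operators along an ultrafilter. `PM.exists_lim`: the weak limit of maps in `PM` of mass one is in `PM` and has mass one.
`PM.cs`: Cauchy-Schwarz for functions `f f'` with `f ≥ 0`.
`pos_main`: if `X j = Xm (h j) Ω` with `h j` of mass one and `⟪τ Om x, X j x⟫ → ‖x‖²`, then the first chaos components of `t⁻¹ᐟ² X j` tend to the limit of the `h j` at `f_F`.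
-/

set_option autoImplicit false
set_option linter.unusedSectionVars false

open Filter Topology

namespace Pool.Agent.Helper16.FP

open Pool.Agent.Helper35.FP

section WL

variable {H K : Type} [NormedAddCommGroup H] [InnerProductSpace ℂ H] [CompleteSpace H]
  [NormedAddCommGroup K] [InnerProductSpace ℂ K] [CompleteSpace K]

/-- bounded sequences of complex numbers converge along ultrafilters -/
theorem exists_ulim {α : Type} (ω : Ultrafilter α) (z : α → ℂ) {C : ℝ} (hz : ∀ j, ‖z j‖ ≤ C) : ∃ l : ℂ, Tendsto z ω (𝓝 l) ∧ ‖l‖ ≤ C := by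
  have h1 : (ω.map z : Filter ℂ) ≤ 𝓟 (Metric.closedBall 0 C) := by
    rw [le_principal_iff]
    exact Filter.mem_map.2 (Filter.Eventually.of_forall fun j => mem_closedBall_zero_iff.2 (hz j))
  obtain ⟨l, hl, h2⟩ := (isCompact_closedBall (0 : ℂ) C).ultrafilter_le_nhds (ω.map z) h1
  exact ⟨l, h2, mem_closedBall_zero_iff.1 hl⟩

/-- weak limits of operators -/
theorem exists_wl {α : Type} (ω : Ultrafilter α) (A : α → (H →L[ℂ] K)) {C : ℝ} (hC : ∀ j x, ‖A j x‖ ≤ C * ‖x‖) :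
    ∃ T : H →L[ℂ] K, (∀ x y, Tendsto (fun j => (inner ℂ y (A j x) : ℂ)) ω (𝓝 (inner ℂ y (T x)))) ∧ ∀ x, ‖T x‖ ≤ C * ‖x‖ := by
  have hb : ∀ (x : H) (y : K) (j : α), ‖(inner ℂ y (A j x) : ℂ)‖ ≤ C * ‖x‖ * ‖y‖ := by
    intro x y j
    refine (norm_inner_le_norm _ _).trans ?_
    rw [mul_comm]
    exact mul_le_mul_of_nonneg_right (hC j x) (norm_nonneg _)
  choose l hl hlb using fun (x : H) (y : K) => exists_ulim ω (fun j => (inner ℂ y (A j x) : ℂ)) (hb x y)
  have hne : (ω : Filter α).NeBot := ω.neBot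
  -- for fixed `x`, `y ↦ conj (l x y)` is a bounded functional
  have hadd : ∀ x (y y' : K), l x (y + y') = l x y + l x y' := fun x y y' => by
    refine tendsto_nhds_unique (hl x (y + y')) ?_
    simp only [inner_add_left]
    exact (hl x y).add (hl x y')
  have hsm : ∀ x (c : ℂ) (y : K), l x (c • y) = (starRingEnd ℂ) c * l x y := fun x c y => by
    refine tendsto_nhds_unique (hl x (c • y)) ?_
    simp only [inner_smul_left]
    exact (hl x y).const_mul _
  have hadd' : ∀ (x x' : H) y, l (x + x') y = l x y + l x' y := fun x x' y => by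
    refine tendsto_nhds_unique (hl (x + x') y) ?_
    simp only [map_add, inner_add_right]
    exact (hl x y).add (hl x' y)
  have hsm' : ∀ (c : ℂ) (x : H) y, l (c • x) y = c * l x y := fun c x y => by
    refine tendsto_nhds_unique (hl (c • x) y) ?_
    simp only [map_smul, inner_smul_right]
    exact (hl x y).const_mul _
  let φ : H → (K →L[ℂ] ℂ) := fun x => LinearMap.mkContinuous
    { toFun := fun y => (starRingEnd ℂ) (l x y)
      map_add' := fun y y' => by rw [hadd, map_add]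
      map_smul' := fun c y => by rw [hsm, map_mul, Complex.conj_conj]; rfl } (C * ‖x‖) (fun y => by
        change ‖(starRingEnd ℂ) (l x y)‖ ≤ _
        rw [RCLike.norm_conj]
        exact hlb x y)
  let T0 : H → K := fun x => (InnerProductSpace.toDual ℂ K).symm (φ x)
  have hT0 : ∀ x y, (inner ℂ y (T0 x) : ℂ) = l x y := by
    intro x y
    rw [← inner_conj_symm, InnerProductSpace.toDual_symm_apply]
    change (starRingEnd ℂ) ((starRingEnd ℂ) (l x y)) = _
    rw [Complex.conj_conj]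
  have hTn : ∀ x, ‖T0 x‖ ≤ C * ‖x‖ := by
    intro x
    by_cases h0 : T0 x = 0
    · rw [h0, norm_zero]
      by_contra hneg
      push Not at hneg
      have h1 := hlb x (T0 x)
      have h2 : 0 < ‖x‖ := by
        by_contra h3
        have h4 : ‖x‖ = 0 := le_antisymm (not_lt.1 h3) (norm_nonneg _)
        rw [h4, mul_zero] at hneg
        exact lt_irrefl _ hneg
      obtain ⟨j⟩ := hne.nonempty_of_mem univ_mem |>.to_subtype
      have h3 := hC j.1 x
      linarith [norm_nonneg (A j.1 x)]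
    · have h1 := hlb x (T0 x)
      rw [← hT0, re_inner_real, Complex.norm_real, Real.norm_of_nonneg (by positivity), sq] at h1
      exact le_of_mul_le_mul_right h1 (norm_pos_iff.2 h0)
  refine ⟨LinearMap.mkContinuous { toFun := T0, map_add' := fun x x' => ?_, map_smul' := fun c x => ?_ } C hTn, fun x y => ?_, hTn⟩
  · refine ext_inner_left ℂ fun y => ?_
    rw [inner_add_right, hT0, hT0, hT0, hadd']
  · refine ext_inner_left ℂ fun y => ?_
    rw [RingHom.id_apply, inner_smul_right, hT0, hT0, hsm']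
  · change Tendsto _ _ (𝓝 (inner ℂ y (T0 x)))
    rw [hT0]
    exact hl x y

end WL

variable {𝔾 𝕊 : Type} [Group 𝔾] [TopologicalSpace 𝔾] [IsTopologicalGroup 𝔾] [Group 𝕊] [TopologicalSpace 𝕊] [IsTopologicalGroup 𝕊]
  {𝕂 : Subgroup 𝕊} {geo : Geo 𝔾 𝕊 𝕂} {G S' H U : Type} [Group G] [Group S'] [TopologicalSpace S'] [IsTopologicalGroup S']
  [NormedAddCommGroup H] [InnerProductSpace ℂ H] [CompleteSpace H]
  [NormedAddCommGroup U] [InnerProductSpace ℂ U] [CompleteSpace U]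

section CS

variable {B : BD geo G S' H U} {m : (𝔾 → ℂ) → (H →L[ℂ] H)}

theorem PM.nonneg (h : PM B m) {f : 𝔾 → ℂ} (hf : Bf geo f) {f0 : 𝔾 → ℝ} (hf0 : ∀ g, f g = (f0 g : ℂ)) (h0 : ∀ g, 0 ≤ f0 g) (x : H) :
    0 ≤ (inner ℂ x (m f x)).re := by
  have h1 := h.pos 1 (fun _ _ => f) (fun _ _ => hf) (fun g z => by
    simp only [Finset.univ_unique, Fin.default_eq_zero, Fin.isValue, Finset.sum_singleton]
    rw [mul_right_comm, mul_comm ((starRingEnd ℂ) (z 0)), Complex.mul_conj, hf0, ← Complex.ofReal_mul, Complex.ofReal_re]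
    exact mul_nonneg (Complex.normSq_nonneg _) (h0 g)) (fun _ => x)
  simpa using h1

/-- Cauchy-Schwarz -/
theorem PM.cs (h : PM B m) {f f' : 𝔾 → ℂ} (hf : Bf geo f) (hf' : Bf geo f') {f0 : 𝔾 → ℝ} (hf0 : ∀ g, f g = (f0 g : ℂ)) (h0 : ∀ g, 0 ≤ f0 g)
    {C : ℝ} (hC : ∀ g, ‖f' g‖ ≤ C) (x y : H) :
    2 * ‖(inner ℂ x (m (fun g => f g * f' g) y) : ℂ)‖ ≤ C * ((inner ℂ x (m f x)).re + (inner ℂ y (m f y)).re) := by
  have hC0 : 0 ≤ C := (norm_nonneg _).trans (hC 1)
  have hff : Bf geo fun g => f g * f' g := bfMul hf hf'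
  let a : Fin 2 → Fin 2 → 𝔾 → ℂ := ![![fun g => (C : ℂ) * f g, fun g => f g * f' g],
    ![fun g => (starRingEnd ℂ) (f g * f' g), fun g => (C : ℂ) * f g]]
  have ha : ∀ i j, Bf geo (a i j) := by
    intro i j
    fin_cases i <;> fin_cases j
    · exact bfSmul _ hf
    · exact hff
    · exact bfConj hff
    · exact bfSmul _ hf
  have hp : ∀ (g : 𝔾) (z : Fin 2 → ℂ), 0 ≤ (∑ i, ∑ j, (starRingEnd ℂ) (z i) * a i j g * z j).re := by
    intro g z
    simp only [Fin.sum_univ_two, a, Matrix.cons_val_zero, Matrix.cons_val_one]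
    have e1 : ∀ w : ℂ, ((starRingEnd ℂ) w * ((C : ℂ) * f g) * w).re = C * f0 g * ‖w‖ ^ 2 := by
      intro w
      rw [hf0, mul_right_comm, mul_comm ((starRingEnd ℂ) w), Complex.mul_conj, Complex.normSq_eq_norm_sq, ← Complex.ofReal_mul,
        ← Complex.ofReal_mul, Complex.ofReal_re]
      ring
    have e3 : ((starRingEnd ℂ) (z 1) * (starRingEnd ℂ) (f g * f' g) * z 0).re = ((starRingEnd ℂ) (z 0) * (f g * f' g) * z 1).re := by
      rw [← Complex.conj_re]
      congr 1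
      simp only [map_mul, Complex.conj_conj]
      ring
    have e4 : -(C * f0 g * ‖z 0‖ * ‖z 1‖) ≤ ((starRingEnd ℂ) (z 0) * (f g * f' g) * z 1).re := by
      have h1 : ‖(starRingEnd ℂ) (z 0) * (f g * f' g) * z 1‖ ≤ C * f0 g * ‖z 0‖ * ‖z 1‖ := by
        rw [norm_mul, norm_mul, norm_mul, RCLike.norm_conj, hf0, Complex.norm_real, Real.norm_of_nonneg (h0 g)]
        have := hC g
        have := h0 g
        calc ‖z 0‖ * (f0 g * ‖f' g‖) * ‖z 1‖ ≤ ‖z 0‖ * (f0 g * C) * ‖z 1‖ := by gcongr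
          _ = _ := by ring
      have h2 := Complex.abs_re_le_norm ((starRingEnd ℂ) (z 0) * (f g * f' g) * z 1)
      exact (abs_le.1 (h2.trans h1)).1
    rw [Complex.add_re, Complex.add_re, Complex.add_re, e1, e1, e3]
    nlinarith [mul_nonneg (mul_nonneg hC0 (h0 g)) (sq_nonneg (‖z 0‖ - ‖z 1‖))]
  have h1 : ∀ x y : H, -(2 * (inner ℂ x (m (fun g => f g * f' g) y)).re) ≤ C * ((inner ℂ x (m f x)).re + (inner ℂ y (m f y)).re) := by
    intro x y
    have h2 := h.pos 2 a ha hp ![x, y]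
    simp only [Fin.sum_univ_two, a, Matrix.cons_val_zero, Matrix.cons_val_one] at h2
    rw [h.smul _ _ hf, h.smul _ _ hf] at h2
    have e5 : (inner ℂ y (m (fun g => (starRingEnd ℂ) (f g * f' g)) x) : ℂ).re = (inner ℂ x (m (fun g => f g * f' g) y)).re := by
      rw [← h.star _ hff y x, ← inner_conj_symm, Complex.conj_re]
    rw [Complex.add_re, Complex.add_re, Complex.add_re, e5, inner_smul_right, inner_smul_right, Complex.re_ofReal_mul,
      Complex.re_ofReal_mul] at h2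
    linarith
  -- rotate `x`
  set z : ℂ := inner ℂ x (m (fun g => f g * f' g) y) with hz
  rcases eq_or_ne z 0 with h0' | h0'
  · rw [h0', norm_zero, mul_zero]
    have := h1 x y
    rw [← hz, h0'] at this
    simpa using this
  · set c : ℂ := -(z / ‖z‖) with hc
    have hcn : ‖c‖ = 1 := by
      rw [hc, norm_neg, norm_div, Complex.norm_real, norm_norm]
      exact div_self (norm_ne_zero_iff.2 h0')
    have h2 := h1 (c • x) y
    have h3 : (inner ℂ (c • x) (m (fun g => f g * f' g) y) : ℂ).re = -‖z‖ := by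
      rw [inner_smul_left, ← hz, hc, map_neg, map_div₀, Complex.conj_ofReal, neg_mul, div_mul_eq_mul_div, mul_comm,
        Complex.mul_conj, Complex.normSq_eq_norm_sq]
      have : (-(((‖z‖ ^ 2 : ℝ) : ℂ) / ((‖z‖ : ℝ) : ℂ))) = ((-‖z‖ : ℝ) : ℂ) := by
        have : ((‖z‖ : ℝ) : ℂ) ≠ 0 := by exact_mod_cast norm_ne_zero_iff.2 h0'
        push_cast
        field_simp
      rw [this, Complex.ofReal_re]
    have h4 : (inner ℂ (c • x) (m f (c • x)) : ℂ).re = (inner ℂ x (m f x)).re := by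
      rw [map_smul, inner_smul_left, inner_smul_right, ← mul_assoc, mul_comm ((starRingEnd ℂ) c), Complex.mul_conj,
        Complex.normSq_eq_norm_sq, hcn]
      simp
    rw [h3, h4] at h2
    linarith

end CS

section Lim

variable {B : BD geo G S' H U}

/-- Weak limits of positive maps of mass one. -/
theorem exists_lim (ω : Ultrafilter ℕ) {m : ℕ → (𝔾 → ℂ) → (H →L[ℂ] H)} (h : ∀ j, PM B (m j)) (hm : ∀ j, (h j).mass = 1) :
    ∃ M : (𝔾 → ℂ) → (H →L[ℂ] H), PM B M ∧ (∀ x, M (fun _ => 1) x = x) ∧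
      ∀ f, Bf geo f → ∀ x y, Tendsto (fun j => (inner ℂ y (m j f x) : ℂ)) ω (𝓝 (inner ℂ y (M f x))) := by
  classical
  have hex : ∀ f : 𝔾 → ℂ, Bf geo f → ∃ T : H →L[ℂ] H, ∀ x y, Tendsto (fun j => (inner ℂ y (m j f x) : ℂ)) ω (𝓝 (inner ℂ y (T x))) := by
    intro f hf
    obtain ⟨C, hC⟩ := hf.bdd
    obtain ⟨T, hT, -⟩ := exists_wl ω (fun j => m j f) (C := C) (fun j x => by
      have := (h j).norm_le hf hC x
      rwa [hm j, mul_one] at this)
    exact ⟨T, hT⟩
  let M : (𝔾 → ℂ) → (H →L[ℂ] H) := fun f => if hf : Bf geo f then (hex f hf).choose else 0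
  have hM : ∀ f, Bf geo f → ∀ x y, Tendsto (fun j => (inner ℂ y (m j f x) : ℂ)) ω (𝓝 (inner ℂ y (M f x))) := by
    intro f hf x y
    have : M f = (hex f hf).choose := dif_pos hf
    rw [this]
    exact (hex f hf).choose_spec x y
  have hne : (ω : Filter ℕ).NeBot := ω.neBot
  refine ⟨M, ⟨fun f f' hf hf' x => ?_, fun c f hf x => ?_, fun n a ha hp u => ?_, fun f hf x y => ?_, fun f f' hf hf' x => ?_,
    fun k f hf x => ?_, fun c hc f hf x => ?_⟩, fun x => ?_, hM⟩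
  · refine ext_inner_left ℂ fun y => tendsto_nhds_unique (hM _ (bfAdd hf hf') x y) ?_
    rw [inner_add_right]
    refine ((hM f hf x y).add (hM f' hf' x y)).congr fun j => ?_
    rw [(h j).add f f' hf hf', inner_add_right]
  · refine ext_inner_left ℂ fun y => tendsto_nhds_unique (hM _ (bfSmul c hf) x y) ?_
    rw [inner_smul_right]
    refine ((hM f hf x y).const_mul c).congr fun j => ?_
    rw [(h j).smul c f hf, inner_smul_right]
  · have h1 : Tendsto (fun j => (∑ i, ∑ l, (inner ℂ (u i) (m j (a i l) (u l)) : ℂ)).re) ω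
        (𝓝 (∑ i, ∑ l, (inner ℂ (u i) (M (a i l) (u l)) : ℂ)).re) :=
      (Complex.continuous_re.tendsto _).comp (tendsto_finsetSum _ fun i _ => tendsto_finsetSum _ fun l _ => hM _ (ha i l) _ _)
    exact ge_of_tendsto' h1 fun j => (h j).pos n a ha hp u
  · rw [← inner_conj_symm]
    refine tendsto_nhds_unique ((Complex.continuous_conj.tendsto _).comp (hM f hf x y)) ?_
    refine (hM _ (bfConj hf) y x).congr fun j => ?_
    simp only [Function.comp]
    rw [inner_conj_symm, (h j).star f hf]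
  · refine ext_inner_left ℂ fun y => tendsto_nhds_unique (hM f hf _ y) ?_
    refine (hM _ (bfMul hf hf'.bf) x y).congr fun j => ?_
    rw [(h j).mulR f f' hf hf']
  · refine ext_inner_left ℂ fun y => tendsto_nhds_unique (hM _ (bfLeft hf _) _ y) ?_
    have e : ∀ z : H, (inner ℂ y (B.W k z) : ℂ) = inner ℂ ((B.W k).symm y) z := by
      intro z
      conv_lhs => rw [← (B.W k).apply_symm_apply y]
      exact LinearIsometryEquiv.inner_map_map _ _ _
    rw [e]
    refine (hM f hf x _).congr fun j => ?_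
    rw [(h j).cov k f hf, e]
  · refine ext_inner_left ℂ fun y => ?_
    have e : ∀ z : H, (inner ℂ y (c.1 z) : ℂ) = inner ℂ (c.1.symm y) z := by
      intro z
      conv_lhs => rw [← c.1.apply_symm_apply y]
      exact LinearIsometryEquiv.inner_map_map _ _ _
    rw [e]
    refine tendsto_nhds_unique (hM f hf x _) ?_
    refine (hM f hf (c.1 x) y).congr fun j => ?_
    rw [← (h j).CC c hc f hf, e]
  · refine ext_inner_left ℂ fun y => tendsto_nhds_unique (hM _ (bfConst 1) x y) ?_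
    refine tendsto_const_nhds.congr fun j => ?_
    rw [(h j).one_apply, hm j, Complex.ofReal_one, one_smul]

/-- the functions of small mass can be neglected -/
theorem tendsto_small {m : ℕ → (𝔾 → ℂ) → (H →L[ℂ] H)} {l : Filter ℕ} (h : ∀ j, PM B (m j)) (hm : ∀ j, (h j).mass = 1)
    (w : ℕ → 𝔾 → ℝ) (hw : ∀ j, Bf geo fun g => (w j g : ℂ)) (h1 : ∀ j g, w j g ≤ 1)
    (hlim : ∀ x : H, Tendsto (fun j => (inner ℂ x (m j (fun g => (w j g : ℂ)) x) : ℂ).re) l (𝓝 (‖x‖ ^ 2)))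
    {f : 𝔾 → ℂ} (hf : Bf geo f) (x y : H) :
    Tendsto (fun j => (inner ℂ y (m j f x) : ℂ) - inner ℂ y (m j (fun g => (w j g : ℂ) * f g) x)) l (𝓝 0) := by
  obtain ⟨C, hC⟩ := hf.bdd
  have hC0 : 0 ≤ C := (norm_nonneg _).trans (hC 1)
  have hb : ∀ j, Bf geo fun g => (1 : ℂ) + (-1) * (w j g : ℂ) := fun j => bfAdd (bfConst 1) (bfSmul _ (hw j))
  have e1 : ∀ (j : ℕ) (z : H), (inner ℂ z (m j (fun g => (1 : ℂ) + (-1) * (w j g : ℂ)) z) : ℂ).re =
      ‖z‖ ^ 2 - (inner ℂ z (m j (fun g => (w j g : ℂ)) z) : ℂ).re := by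
    intro j z
    rw [(h j).add _ _ (bfConst 1) (bfSmul _ (hw j)), (h j).smul _ _ (hw j), (h j).one_apply, hm j, Complex.ofReal_one, one_smul,
      inner_add_right, inner_smul_right, re_inner_real, Complex.add_re, Complex.ofReal_re]
    simp
    ring
  have e2 : ∀ j, (inner ℂ y (m j f x) : ℂ) - inner ℂ y (m j (fun g => (w j g : ℂ) * f g) x) =
      inner ℂ y (m j (fun g => ((1 : ℂ) + (-1) * (w j g : ℂ)) * f g) x) := by
    intro j
    have e3 : (fun g => ((1 : ℂ) + (-1) * (w j g : ℂ)) * f g) = fun g => f g + (-1) * ((w j g : ℂ) * f g) := by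
      funext g
      ring
    rw [e3, (h j).add _ _ hf (bfSmul _ (bfMul (hw j) hf)), (h j).smul _ _ (bfMul (hw j) hf), inner_add_right, inner_smul_right]
    ring
  have e4 : ∀ j, ‖(inner ℂ y (m j f x) : ℂ) - inner ℂ y (m j (fun g => (w j g : ℂ) * f g) x)‖ ≤
      C / 2 * ((‖y‖ ^ 2 - (inner ℂ y (m j (fun g => (w j g : ℂ)) y) : ℂ).re) + (‖x‖ ^ 2 - (inner ℂ x (m j (fun g => (w j g : ℂ)) x) : ℂ).re)) := by
    intro j
    rw [e2, ← e1, ← e1]
    have := (h j).cs (hb j) hf (f0 := fun g => 1 - w j g) (fun g => by push_cast; ring) (fun g => by linarith [h1 j g]) hC y x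
    linarith
  have h2 : Tendsto (fun j => C / 2 * ((‖y‖ ^ 2 - (inner ℂ y (m j (fun g => (w j g : ℂ)) y) : ℂ).re) +
      (‖x‖ ^ 2 - (inner ℂ x (m j (fun g => (w j g : ℂ)) x) : ℂ).re))) l (𝓝 0) := by
    have h3 := (((tendsto_const_nhds (x := ‖y‖ ^ 2)).sub (hlim y)).add ((tendsto_const_nhds (x := ‖x‖ ^ 2)).sub (hlim x))).const_mul (C / 2)
    rw [sub_self, sub_self, add_zero, mul_zero] at h3
    exact h3
  exact squeeze_zero_norm e4 h2

end Lim

section Main

variable {B : BD geo G S' H U} {L D : Type} [NormedAddCommGroup L] [InnerProductSpace ℂ L] [CompleteSpace L]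
  [NormedAddCommGroup D] [InnerProductSpace ℂ D] [CompleteSpace D]

/-- the function `g ↦ ⟪F g, lam(h)⁻¹ c(h)⟫`, `h = nb (r g)` -/
noncomputable def fF (lam : Rp 𝕊 D) (c : 𝕊 → D) (F : Sec geo lam) (g : 𝔾) : ℂ :=
  inner ℂ ((F : 𝔾 → D) g) (lam.U (geo.nb (geo.r g))⁻¹ (c (geo.nb (geo.r g))))

/-- the function `g ↦ w(h)`, `h = nb (r g)`, is in `Bf` -/
theorem w_bf (ρ : Rp 𝕊 L) (v : L) (hv : ∀ k ∈ 𝕂, ρ.U k v = v) : Bf geo fun g => (inner ℂ v (ρ.U (geo.nb (geo.r g)) v) : ℂ) := by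
  have h1 := bfI (Om geo ρ v hv) (cst ρ v hv)
  have h2 : (fun g => (inner ℂ v (ρ.U (geo.nb (geo.r g)) v) : ℂ)) =
      fun g => inner ℂ ((Om geo ρ v hv : 𝔾 → L) g) ((cst (geo := geo) ρ v hv : 𝔾 → L) g) := by
    funext g
    rw [Om_apply]
    change _ = inner ℂ (ρ.U (geo.nb (geo.r g))⁻¹ v) v
    rw [← LinearIsometryEquiv.inner_map_map (ρ.U (geo.nb (geo.r g))) (ρ.U (geo.nb (geo.r g))⁻¹ v)]
    congr 1
    have : (ρ.U (geo.nb (geo.r g)) * ρ.U (geo.nb (geo.r g))⁻¹) v = v := by rw [← map_mul, mul_inv_cancel, map_one]; rfl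
    exact this.symm
  rw [h2]
  exact h1

/-- **Limits of the first chaos components.** `tt j` is `√t`, `w j h = ⟪Ω, π_j(h) Ω⟫`. -/
theorem pos_main (π : ℕ → Rp 𝕊 L) (Ω : L) (hΩ1 : ‖Ω‖ = 1) (hΩ : ∀ j, ∀ k ∈ 𝕂, (π j).U k Ω = Ω)
    (lam : Rp 𝕊 D) (ι : D →L[ℂ] L) (hι : ∀ j, ItK 𝕂 lam (π j) ι) (c : 𝕊 → D) (tt : ℕ → ℝ) (htt : ∀ j, tt j ≠ 0)
    (w : ℕ → 𝕊 → ℝ) (hw : ∀ j h, (inner ℂ Ω ((π j).U h Ω) : ℂ) = (w j h : ℂ))
    (hc : ∀ j h (d : D), (inner ℂ (ι d) ((π j).U h Ω) : ℂ) = (w j h : ℂ) * ((tt j : ℂ) * inner ℂ d (c h)))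
    {m : ℕ → (𝔾 → ℂ) → (H →L[ℂ] H)} (h : ∀ j, PM B (m j)) (hm : ∀ j, (h j).mass = 1)
    {l : Filter ℕ}
    (hlim : ∀ x : H, Tendsto (fun j => (inner ℂ (tau B (Om geo (π j) Ω (hΩ j)) x) (((Xm (h j) Ω (hΩ j) : MM B (π j)) : H →L[ℂ] Kt B (π j)) x) : ℂ).re)
      l (𝓝 (‖x‖ ^ 2)))
    {M : (𝔾 → ℂ) → (H →L[ℂ] H)} (hM : ∀ f, Bf geo f → ∀ x y, Tendsto (fun j => (inner ℂ y (m j f x) : ℂ)) l (𝓝 (inner ℂ y (M f x))))
    (F : Sec geo lam) (hF : Bf geo (fF lam c F)) (x y : H) :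
    Tendsto (fun j => ((tt j : ℂ))⁻¹ * (inner ℂ (tau B ((Fd.ofK (hι j)).ap F) y) (((Xm (h j) Ω (hΩ j) : MM B (π j)) : H →L[ℂ] Kt B (π j)) x) : ℂ))
      l (𝓝 (inner ℂ y (M (fF lam c F) x))) := by
  -- the weights
  have hww : ∀ j g, (inner ℂ (((Om geo (π j) Ω (hΩ j)) : 𝔾 → L) g) Ω : ℂ) = (w j (geo.nb (geo.r g)) : ℂ) := by
    intro j g
    rw [Om_apply, ← hw]
    rw [← LinearIsometryEquiv.inner_map_map ((π j).U (geo.nb (geo.r g))) ((π j).U (geo.nb (geo.r g))⁻¹ Ω)]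
    congr 1
    have : ((π j).U (geo.nb (geo.r g)) * (π j).U (geo.nb (geo.r g))⁻¹) Ω = Ω := by rw [← map_mul, mul_inv_cancel, map_one]; rfl
    exact this
  have hw1 : ∀ j h, w j h ≤ 1 := by
    intro j h
    have h1 : ‖(w j h : ℂ)‖ ≤ 1 := by
      rw [← hw]
      refine (norm_inner_le_norm _ _).trans ?_
      rw [LinearIsometryEquiv.norm_map, hΩ1, one_mul]
    rw [Complex.norm_real] at h1
    exact (le_abs_self _).trans h1
  have hwb : ∀ j, Bf geo fun g => (w j (geo.nb (geo.r g)) : ℂ) := by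
    intro j
    have := w_bf (geo := geo) (π j) Ω (hΩ j)
    simp only [hw] at this
    exact this
  have hlim' : ∀ x : H, Tendsto (fun j => (inner ℂ x (m j (fun g => (w j (geo.nb (geo.r g)) : ℂ)) x) : ℂ).re) l (𝓝 (‖x‖ ^ 2)) := by
    intro x
    refine (hlim x).congr fun j => ?_
    rw [← inner_cmp, cmp_Xm]
    simp only [hww]
  have h1 := tendsto_small h hm (fun j g => w j (geo.nb (geo.r g))) hwb (fun j g => hw1 j _) hlim' hF x y
  have h2 := (hM _ hF x y).sub h1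
  rw [sub_zero] at h2
  refine h2.congr fun j => ?_
  rw [sub_sub_cancel, ← inner_cmp, cmp_Xm]
  have h3 : (fun g => (inner ℂ ((((Fd.ofK (hι j)).ap F : Sec geo (π j)) : 𝔾 → L) g) Ω : ℂ)) =
      fun g => (tt j : ℂ) * ((w j (geo.nb (geo.r g)) : ℂ) * fF lam c F g) := by
    funext g
    change (inner ℂ ((π j).U (geo.nb (geo.r g))⁻¹ (ι (lam.U (geo.nb (geo.r g)) ((F : 𝔾 → D) g)))) Ω : ℂ) = _
    have e1 : (inner ℂ ((π j).U (geo.nb (geo.r g))⁻¹ (ι (lam.U (geo.nb (geo.r g)) ((F : 𝔾 → D) g)))) Ω : ℂ) =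
        inner ℂ (ι (lam.U (geo.nb (geo.r g)) ((F : 𝔾 → D) g))) ((π j).U (geo.nb (geo.r g)) Ω) := by
      rw [← LinearIsometryEquiv.inner_map_map ((π j).U (geo.nb (geo.r g)))]
      congr 1
      have : ∀ z, ((π j).U (geo.nb (geo.r g)) * (π j).U (geo.nb (geo.r g))⁻¹) z = z := fun z => by
        rw [← map_mul, mul_inv_cancel, map_one]; rfl
      exact this _
    rw [e1, hc]
    have e2 : (inner ℂ (lam.U (geo.nb (geo.r g)) ((F : 𝔾 → D) g)) (c (geo.nb (geo.r g))) : ℂ) = fF lam c F g := by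
      unfold fF
      rw [← LinearIsometryEquiv.inner_map_map (lam.U (geo.nb (geo.r g))) ((F : 𝔾 → D) g)]
      congr 1
      have : ∀ z, (lam.U (geo.nb (geo.r g)) * lam.U (geo.nb (geo.r g))⁻¹) z = z := fun z => by
        rw [← map_mul, mul_inv_cancel, map_one]; rfl
      exact (this _).symm
    rw [e2]
    ring
  rw [h3, (h j).smul _ _ (bfMul (hwb j) hF), inner_smul_right, ← mul_assoc, inv_mul_cancel₀ (by exact_mod_cast htt j), one_mul]

end Main

end Pool.Agent.Helper16.FP
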