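import Mathlib

/-!
# Project FP (MP_0f6f3f_an): the spherical functions of `SL(2, ℂ)`

A continuous real function `b` with `b(r) b(s) = ½ ∫_{r-s}^{r+s} b` is zero or `sinh (L r) / L` with `L ^ 2` real.
-/

set_option autoImplicit false
set_option linter.unusedSectionVars false
set_option linter.style.haveILetI false

open MeasureTheory Topology

namespace Pool.Agent.Helper16.FP

/-- the functional equation -/
def FE (b : ℝ → ℝ) : Prop := Continuous b ∧ ∀ r s, b r * b s = (1 / 2) * ∫ t in (r - s)..(r + s), b t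

theorem FE.ode {b : ℝ → ℝ} (h : FE b) (hne : ∃ s, b s ≠ 0) : ∃ (b1 : ℝ → ℝ) (c : ℝ),
    (∀ r, HasDerivAt b (b1 r) r) ∧ (∀ r, HasDerivAt b1 (c * b r) r) ∧ b 0 = 0 ∧ b1 0 = 1 := by
  obtain ⟨hc, hfe⟩ := h
  obtain ⟨s₀, hs₀⟩ := hne
  set J : ℝ → ℝ := fun r => ∫ t in (0 : ℝ)..r, b t with hJ
  have hJd : ∀ r, HasDerivAt J (b r) r := fun r =>
    intervalIntegral.integral_hasDerivAt_right (hc.intervalIntegrable _ _) (hc.stronglyMeasurableAtFilter _ _) hc.continuousAt
  have hJfe : ∀ r s, b r * b s = (1 / 2) * (J (r + s) - J (r - s)) := by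
    intro r s
    rw [hfe, hJ]
    simp only
    rw [intervalIntegral.integral_interval_sub_left (hc.intervalIntegrable _ _) (hc.intervalIntegrable _ _)]
  have hb0 : b 0 = 0 := by
    have := hJfe s₀ 0
    simp only [add_zero, sub_zero, sub_self, mul_zero] at this
    exact (mul_eq_zero.1 this).resolve_left hs₀
  set b1 : ℝ → ℝ := fun r => (b (r + s₀) - b (r - s₀)) / (2 * b s₀) with hb1
  have hd1 : ∀ r, HasDerivAt b (b1 r) r := by
    intro r
    have h1 : HasDerivAt (fun r => (J (r + s₀) - J (r - s₀)) / (2 * b s₀)) (b1 r) r :=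
      (((hJd (r + s₀)).comp_add_const r s₀).sub ((hJd (r - s₀)).comp_sub_const r s₀)).div_const _
    refine h1.congr_of_eventuallyEq (Filter.Eventually.of_forall fun x => ?_)
    have := hJfe x s₀
    simp only
    field_simp
    linarith
  set b2 : ℝ → ℝ := fun r => (b1 (r + s₀) - b1 (r - s₀)) / (2 * b s₀) with hb2
  have hd2 : ∀ r, HasDerivAt b1 (b2 r) r := by
    intro r
    exact (((hd1 (r + s₀)).comp_add_const r s₀).sub ((hd1 (r - s₀)).comp_sub_const r s₀)).div_const _
  -- differentiate in `r`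
  have e1 : ∀ r s, b1 r * b s = (1 / 2) * (b (r + s) - b (r - s)) := by
    intro r s
    have h1 : HasDerivAt (fun x => b x * b s) (b1 r * b s) r := (hd1 r).mul_const _
    have h2 : HasDerivAt (fun x => (1 / 2) * (J (x + s) - J (x - s))) ((1 / 2) * (b (r + s) - b (r - s))) r :=
      (((hJd (r + s)).comp_add_const r s).sub ((hJd (r - s)).comp_sub_const r s)).const_mul _
    have h3 : (fun x => b x * b s) = fun x => (1 / 2) * (J (x + s) - J (x - s)) := funext fun x => hJfe x s
    rw [h3] at h1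
    exact h1.unique h2
  have e2 : ∀ r s, b2 r * b s = (1 / 2) * (b1 (r + s) - b1 (r - s)) := by
    intro r s
    have h1 : HasDerivAt (fun x => b1 x * b s) (b2 r * b s) r := (hd2 r).mul_const _
    have h2 : HasDerivAt (fun x => (1 / 2) * (b (x + s) - b (x - s))) ((1 / 2) * (b1 (r + s) - b1 (r - s))) r :=
      (((hd1 (r + s)).comp_add_const r s).sub ((hd1 (r - s)).comp_sub_const r s)).const_mul _
    have h3 : (fun x => b1 x * b s) = fun x => (1 / 2) * (b (x + s) - b (x - s)) := funext fun x => e1 x s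
    rw [h3] at h1
    exact h1.unique h2
  -- differentiate in `s`
  have e3 : ∀ r s, b r * b1 s = (1 / 2) * (b (r + s) + b (r - s)) := by
    intro r s
    have h1 : HasDerivAt (fun x => b r * b x) (b r * b1 s) s := (hd1 s).const_mul _
    have h2 : HasDerivAt (fun x => (1 / 2) * (J (r + x) - J (r - x))) ((1 / 2) * (b (r + s) - (-b (r - s)))) s := by
      refine HasDerivAt.const_mul _ (HasDerivAt.sub ?_ ?_)
      · have := (hJd (r + s)).comp_const_add r s
        exact this
      · have := (hJd (r - s)).comp_const_sub r s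
        exact this
    have h3 : (fun x => b r * b x) = fun x => (1 / 2) * (J (r + x) - J (r - x)) := funext fun x => hJfe r x
    rw [h3] at h1
    rw [h1.unique h2, sub_neg_eq_add]
  have e4 : ∀ r s, b r * b2 s = (1 / 2) * (b1 (r + s) - b1 (r - s)) := by
    intro r s
    have h1 : HasDerivAt (fun x => b r * b1 x) (b r * b2 s) s := (hd2 s).const_mul _
    have h2 : HasDerivAt (fun x => (1 / 2) * (b (r + x) + b (r - x))) ((1 / 2) * (b1 (r + s) + (-b1 (r - s)))) s := by
      refine HasDerivAt.const_mul _ (HasDerivAt.add ?_ ?_)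
      · have := (hd1 (r + s)).comp_const_add r s
        exact this
      · have := (hd1 (r - s)).comp_const_sub r s
        exact this
    have h3 : (fun x => b r * b1 x) = fun x => (1 / 2) * (b (r + x) + b (r - x)) := funext fun x => e3 r x
    rw [h3] at h1
    rw [h1.unique h2, ← sub_eq_add_neg]
  refine ⟨b1, b2 s₀ / b s₀, hd1, fun r => ?_, hb0, ?_⟩
  · have h1 : b2 s₀ / b s₀ * b r = b2 r := by
      have := (e2 r s₀).trans (e4 r s₀).symm
      field_simp
      linarith
    rw [h1]
    exact hd2 r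
  · have := e3 s₀ 0
    simp only [add_zero, sub_zero] at this
    have h2 : b s₀ * b1 0 = b s₀ * 1 := by linarith
    exact mul_left_cancel₀ hs₀ h2

/-- energy bound when `L ^ 2 ≤ 0` -/
theorem bound_of_nonpos {b b1 : ℝ → ℝ} {c : ℝ} (hd : ∀ r, HasDerivAt b (b1 r) r) (hd1 : ∀ r, HasDerivAt b1 (c * b r) r)
    (h0 : b 0 = 0) (h1 : b1 0 = 1) (hc : c ≤ 0) (r : ℝ) : |b r| ≤ |r| := by
  have hE : ∀ x y, b1 x ^ 2 - c * b x ^ 2 = b1 y ^ 2 - c * b y ^ 2 := by
    refine is_const_of_deriv_eq_zero (f := fun x => b1 x ^ 2 - c * b x ^ 2) ?_ ?_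
    · intro x
      exact (((hd1 x).pow 2).sub (((hd x).pow 2).const_mul c)).differentiableAt
    · intro x
      have := (((hd1 x).pow 2).sub (((hd x).pow 2).const_mul c)).deriv
      refine Eq.trans this ?_
      push_cast
      ring
  have hb1 : ∀ x, ‖b1 x‖ ≤ 1 := by
    intro x
    have := hE x 0
    rw [h0, h1] at this
    rw [Real.norm_eq_abs, abs_le_one_iff_mul_self_le_one]
    nlinarith [mul_nonneg (neg_nonneg.2 hc) (sq_nonneg (b x))]
  have := Convex.norm_image_sub_le_of_norm_hasDerivWithin_le (f := b) (f' := b1) (C := 1) (s := Set.univ)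
    (fun x _ => (hd x).hasDerivWithinAt) (fun x _ => hb1 x) convex_univ (Set.mem_univ 0) (Set.mem_univ r)
  rw [h0, sub_zero, sub_zero, one_mul] at this
  exact this

/-- the solution when `L ^ 2 > 0` -/
theorem eq_of_pos {b b1 : ℝ → ℝ} {L : ℝ} (hd : ∀ r, HasDerivAt b (b1 r) r) (hd1 : ∀ r, HasDerivAt b1 (L ^ 2 * b r) r)
    (h0 : b 0 = 0) (h1 : b1 0 = 1) (hL : 0 < L) (r : ℝ) : b r = Real.sinh (L * r) / L := by
  have hu : b1 r + L * b r = Real.exp (L * r) := by
    have hE : ∀ x y, (b1 x + L * b x) * Real.exp (-(L * x)) = (b1 y + L * b y) * Real.exp (-(L * y)) := by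
      refine is_const_of_deriv_eq_zero (f := fun x => (b1 x + L * b x) * Real.exp (-(L * x))) ?_ ?_
      · intro x
        exact (((hd1 x).add ((hd x).const_mul L)).mul (((hasDerivAt_id x).const_mul L).neg.exp)).differentiableAt
      · intro x
        have := (((hd1 x).add ((hd x).const_mul L)).mul (((hasDerivAt_id x).const_mul L).neg.exp)).deriv
        refine Eq.trans this ?_
        simp only [id, Pi.neg_apply, Pi.add_apply]
        ring
    have := hE r 0
    rw [h0, h1] at this
    simp only [mul_zero, add_zero, neg_zero, Real.exp_zero, mul_one] at this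
    rw [Real.exp_neg] at this
    field_simp at this
    linarith
  have hv : b1 r - L * b r = Real.exp (-(L * r)) := by
    have hE : ∀ x y, (b1 x - L * b x) * Real.exp (L * x) = (b1 y - L * b y) * Real.exp (L * y) := by
      refine is_const_of_deriv_eq_zero (f := fun x => (b1 x - L * b x) * Real.exp (L * x)) ?_ ?_
      · intro x
        exact (((hd1 x).sub ((hd x).const_mul L)).mul (((hasDerivAt_id x).const_mul L).exp)).differentiableAt
      · intro x
        have := (((hd1 x).sub ((hd x).const_mul L)).mul (((hasDerivAt_id x).const_mul L).exp)).deriv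
        refine Eq.trans this ?_
        simp only [id, Pi.sub_apply]
        ring
    have := hE r 0
    rw [h0, h1] at this
    simp only [mul_zero, sub_zero, Real.exp_zero, mul_one] at this
    rw [Real.exp_neg, ← one_div, eq_div_iff (Real.exp_pos _).ne']
    exact this
  rw [Real.sinh_eq, ← hu, ← hv]
  field_simp
  ring

theorem sinh_le_mul_exp (x : ℝ) : Real.sinh x ≤ x * Real.exp x := by
  have h1 : 1 - Real.exp (-(2 * x)) ≤ 2 * x := by
    have := Real.add_one_le_exp (-(2 * x))
    linarith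
  have h2 : Real.exp x * Real.exp (-(2 * x)) = Real.exp (-x) := by rw [← Real.exp_add]; ring_nf
  rw [Real.sinh_eq]
  nlinarith [Real.exp_pos x]

/-- the uniform growth bound -/
theorem growth {r₀ k : ℝ} (hr₀ : 0 < r₀) (hk : k < 1) : ∃ L₀ : ℝ, 0 ≤ L₀ ∧ L₀ < 1 ∧ ∀ b : ℝ → ℝ, FE b →
    (∀ r, 0 ≤ r → |b r| ≤ Real.sinh r) → b r₀ ≤ k * Real.sinh r₀ → ∀ r, 0 ≤ r → |b r| ≤ r * Real.exp (L₀ * r) := by
  -- the value at `L = 1`
  have hcont : ContinuousAt (fun L : ℝ => Real.sinh (L * r₀) / L) 1 := by
    refine ContinuousAt.div ?_ continuousAt_id one_ne_zero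
    exact (Real.continuous_sinh.comp (continuous_id.mul continuous_const)).continuousAt
  have hlt : k * Real.sinh r₀ < (fun L : ℝ => Real.sinh (L * r₀) / L) 1 := by
    simp only [one_mul, div_one]
    have := Real.sinh_pos_iff.2 hr₀
    nlinarith
  obtain ⟨δ, hδ, hδ'⟩ := Metric.eventually_nhds_iff.1 (hcont.eventually (lt_mem_nhds hlt))
  set L₀ : ℝ := max 0 (1 - δ) with hL₀
  have hL₀0 : 0 ≤ L₀ := le_max_left _ _
  have hL₀1 : L₀ < 1 := max_lt one_pos (by linarith)
  refine ⟨L₀, hL₀0, hL₀1, fun b hb hgr hbk r hr => ?_⟩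
  by_cases hne : ∃ s, b s ≠ 0
  swap
  · push Not at hne
    rw [hne r, abs_zero]
    positivity
  obtain ⟨b1, c, hd, hd1, h0, h1⟩ := hb.ode hne
  rcases le_or_gt c 0 with hc | hc
  · refine (bound_of_nonpos hd hd1 h0 h1 hc r).trans ?_
    rw [abs_of_nonneg hr]
    have : 1 ≤ Real.exp (L₀ * r) := Real.one_le_exp (by positivity)
    nlinarith
  · set L := Real.sqrt c with hL
    have hLp : 0 < L := Real.sqrt_pos.2 hc
    have hL2 : L ^ 2 = c := Real.sq_sqrt hc.le
    have hb' : ∀ r, b r = Real.sinh (L * r) / L := fun r => eq_of_pos hd (by rwa [hL2]) h0 h1 hLp r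
    -- `L ≤ 1`
    have hL1 : L ≤ 1 := by
      by_contra hL1
      push Not at hL1
      -- `sinh (L r) / L ≤ sinh r` for all `r ≥ 0`
      have h2 : ∀ r, 0 ≤ r → Real.exp (L * r) - 1 ≤ L * Real.exp r := by
        intro r hr
        have h3 := hgr r hr
        rw [hb' r] at h3
        have h4 := (le_abs_self _).trans h3
        rw [div_le_iff₀ hLp, Real.sinh_eq, Real.sinh_eq] at h4
        have h5 : Real.exp (-(L * r)) ≤ 1 := Real.exp_le_one_iff.2 (by nlinarith)
        have h6 := Real.exp_pos (-r)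
        nlinarith
      have h3 : ∀ r, 0 ≤ r → Real.exp ((L - 1) * r) ≤ L + 1 := by
        intro r hr
        have h4 := h2 r hr
        have h5 : Real.exp ((L - 1) * r) * Real.exp r = Real.exp (L * r) := by rw [← Real.exp_add]; ring_nf
        have h6 : 1 ≤ Real.exp r := Real.one_le_exp hr
        by_contra h7
        push Not at h7
        nlinarith
      have h4 := h3 ((L + 1) / (L - 1)) (by positivity [sub_pos.2 hL1])
      have h5 := Real.add_one_le_exp ((L - 1) * ((L + 1) / (L - 1)))
      have h6 : (L - 1) * ((L + 1) / (L - 1)) = L + 1 := by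
        have : L - 1 ≠ 0 := (sub_pos.2 hL1).ne'
        field_simp
      rw [h6] at h4 h5
      linarith
    -- `L ≤ L₀`
    have hLL : L ≤ L₀ := by
      by_contra hLL
      push Not at hLL
      have h2 : 1 - δ < L := (le_max_right _ _).trans_lt hLL
      have h3 : dist L 1 < δ := by rw [Real.dist_eq, abs_lt]; constructor <;> linarith
      have h4 := hδ' h3
      rw [hb' r₀] at hbk
      linarith
    rw [hb' r, abs_of_nonneg (div_nonneg (Real.sinh_nonneg_iff.2 (by positivity)) hLp.le), div_le_iff₀ hLp]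
    refine (sinh_le_mul_exp _).trans ?_
    have h2 : Real.exp (L * r) ≤ Real.exp (L₀ * r) := Real.exp_le_exp.2 (by nlinarith)
    calc L * r * Real.exp (L * r) ≤ L * r * Real.exp (L₀ * r) := by gcongr
      _ = r * Real.exp (L₀ * r) * L := by ring

end Pool.Agent.Helper16.FP
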