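import Pool.Agent.Helper35.FP.KT

/-!
# Project FP, block VAC: positive maps and the elements `XX m a`

`BS geo ρ`: bounded continuous sections over the bundle of the symmetric spaces. `PM B m`: `m : Bf → B(H)` is completely positive, covariant, a bimodule map over the functions on
`𝔾 / Q` and commutes with `CC` (for example `B.Xi`, its conjugates by `V s`, averages and limits of those). `XX m a : H → Kt B ρ` is the operator with `(τ F)* (XX m a) = m ⟪F, a⟫`.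
-/

set_option autoImplicit false
set_option linter.unusedSectionVars false

open Filter Topology

namespace Pool.Agent.Helper16.FP

open Pool.Agent.Helper35.FP

variable {𝔾 𝕊 : Type} [Group 𝔾] [TopologicalSpace 𝔾] [IsTopologicalGroup 𝔾] [Group 𝕊] [TopologicalSpace 𝕊] [IsTopologicalGroup 𝕊]
  {𝕂 : Subgroup 𝕊} {geo : Geo 𝔾 𝕊 𝕂} {G S' H U : Type} [Group G] [Group S'] [TopologicalSpace S']
  [NormedAddCommGroup H] [InnerProductSpace ℂ H] [CompleteSpace H]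
  [NormedAddCommGroup U] [InnerProductSpace ℂ U] [CompleteSpace U]

section BfOps

theorem bfAdd {f f' : 𝔾 → ℂ} (h : Bf geo f) (h' : Bf geo f') : Bf geo fun g => f g + f' g := by
  obtain ⟨C, hC⟩ := h.bdd
  obtain ⟨C', hC'⟩ := h'.bdd
  exact ⟨h.cont.add h'.cont, fun g q hq => by rw [h.inv g q hq, h'.inv g q hq], C + C', fun g => (norm_add_le _ _).trans (add_le_add (hC g) (hC' g))⟩

theorem bfMul {f f' : 𝔾 → ℂ} (h : Bf geo f) (h' : Bf geo f') : Bf geo fun g => f g * f' g := by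
  obtain ⟨C, hC⟩ := h.bdd
  obtain ⟨C', hC'⟩ := h'.bdd
  refine ⟨h.cont.mul h'.cont, fun g q hq => by rw [h.inv g q hq, h'.inv g q hq], C * C', fun g => ?_⟩
  rw [norm_mul]
  exact mul_le_mul (hC g) (hC' g) (norm_nonneg _) ((norm_nonneg _).trans (hC g))

theorem bfConst (c : ℂ) : Bf geo fun _ => c := ⟨continuous_const, fun _ _ _ => rfl, ‖c‖, fun _ => le_rfl⟩

theorem bfSmul (c : ℂ) {f : 𝔾 → ℂ} (h : Bf geo f) : Bf geo fun g => c * f g := bfMul (bfConst c) h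

theorem bfConj {f : 𝔾 → ℂ} (h : Bf geo f) : Bf geo fun g => (starRingEnd ℂ) (f g) := by
  obtain ⟨C, hC⟩ := h.bdd
  exact ⟨Complex.continuous_conj.comp h.cont, fun g q hq => by rw [h.inv g q hq], C, fun g => by rw [RCLike.norm_conj]; exact hC g⟩

theorem yfConj {f : 𝔾 → ℂ} (h : Yf geo f) : Yf geo fun g => (starRingEnd ℂ) (f g) :=
  ⟨Complex.continuous_conj.comp h.cont, fun g q => by rw [h.inv g q]⟩

theorem bfLeft {f : 𝔾 → ℂ} (h : Bf geo f) (x : 𝔾) : Bf geo fun g => f (x * g) := by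
  obtain ⟨C, hC⟩ := h.bdd
  exact ⟨h.cont.comp (continuous_const_mul _), fun g q hq => by rw [← mul_assoc]; exact h.inv _ q hq, C, fun g => hC _⟩

end BfOps

section Sections

variable {L : Type} [NormedAddCommGroup L] [InnerProductSpace ℂ L]

/-- Bounded continuous sections over the bundle of the symmetric spaces. -/
def BS (geo : Geo 𝔾 𝕊 𝕂) (ρ : Rp 𝕊 L) : Submodule ℂ (𝔾 → L) where
  carrier := {a | Continuous a ∧ (∀ (g : 𝔾) (q : geo.Q), geo.nb q ∈ 𝕂 → a (g * q) = ρ.U (geo.nb q)⁻¹ (a g)) ∧ ∃ C : ℝ, ∀ g, ‖a g‖ ≤ C}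
  add_mem' := by
    rintro a b ⟨h1, h2, C, hC⟩ ⟨k1, k2, D, hD⟩
    refine ⟨h1.add k1, fun g q hq => ?_, C + D, fun g => (norm_add_le _ _).trans (add_le_add (hC g) (hD g))⟩
    rw [Pi.add_apply, Pi.add_apply, h2 g q hq, k2 g q hq, map_add]
  zero_mem' := ⟨continuous_const, fun g q _ => by simp, 0, fun g => by simp⟩
  smul_mem' := by
    rintro c a ⟨h1, h2, C, hC⟩
    refine ⟨continuous_const.smul h1, fun g q hq => ?_, ‖c‖ * C, fun g => ?_⟩
    · rw [Pi.smul_apply, Pi.smul_apply, h2 g q hq, map_smul]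
    · rw [Pi.smul_apply, norm_smul]
      exact mul_le_mul_of_nonneg_left (hC g) (norm_nonneg _)

variable {ρ : Rp 𝕊 L}

theorem BS.inner_bf (a b : BS geo ρ) : Bf geo fun g => inner ℂ ((a : 𝔾 → L) g) ((b : 𝔾 → L) g) := by
  obtain ⟨h1, h2, C, hC⟩ := a.2
  obtain ⟨k1, k2, D, hD⟩ := b.2
  refine ⟨h1.inner k1, fun g q hq => ?_, C * D, fun g => ?_⟩
  · simp only [h2 g q hq, k2 g q hq, LinearIsometryEquiv.inner_map_map]
  · exact (norm_inner_le_norm _ _).trans (mul_le_mul (hC g) (hD g) (norm_nonneg _) ((norm_nonneg _).trans (hC g)))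

/-- A section as a bounded section. -/
def ofSec (F : Sec geo ρ) : BS geo ρ := ⟨(F : 𝔾 → L), F.2.1, fun g q _ => F.2.2 g q, Sec.bdd F⟩

theorem ofSec_apply (F : Sec geo ρ) (g : 𝔾) : (ofSec F : 𝔾 → L) g = (F : 𝔾 → L) g := rfl

theorem ofSec_add (F F' : Sec geo ρ) : ofSec (F + F') = ofSec F + ofSec F' := rfl

theorem bfI (F : Sec geo ρ) (a : BS geo ρ) : Bf geo fun g => inner ℂ ((F : 𝔾 → L) g) ((a : 𝔾 → L) g) :=
  BS.inner_bf (ofSec F) a

/-- The constant section of a `𝕂`-fixed vector. -/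
def cst (ρ : Rp 𝕊 L) (v : L) (hv : ∀ h ∈ 𝕂, ρ.U h v = v) : BS geo ρ :=
  ⟨fun _ => v, continuous_const, fun _ _ hq => (hv _ (𝕂.inv_mem hq)).symm, ‖v‖, fun _ => le_rfl⟩

/-- The translate of a bounded section. -/
def lft (a : BS geo ρ) (x : 𝔾) : BS geo ρ := ⟨fun g => (a : 𝔾 → L) (x * g), a.2.1.comp (continuous_const_mul _),
  fun g q hq => by
    change (a : 𝔾 → L) (x * (g * q)) = _
    rw [← mul_assoc]; exact a.2.2.1 _ q hq, by
  obtain ⟨C, hC⟩ := a.2.2.2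
  exact ⟨C, fun g => hC _⟩⟩

/-- The product of a bounded section and a bounded function. -/
def fml (a : BS geo ρ) {f : 𝔾 → ℂ} (hf : Bf geo f) : BS geo ρ := ⟨fun g => f g • (a : 𝔾 → L) g, hf.cont.smul a.2.1,
  fun g q hq => by
    change f (g * q) • (a : 𝔾 → L) (g * q) = _
    rw [hf.inv g q hq, a.2.2.1 g q hq, map_smul], by
  obtain ⟨C, hC⟩ := a.2.2.2
  obtain ⟨D, hD⟩ := hf.bdd
  refine ⟨D * C, fun g => ?_⟩
  change ‖f g • (a : 𝔾 → L) g‖ ≤ _
  rw [norm_smul]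
  exact mul_le_mul (hD g) (hC g) (norm_nonneg _) ((norm_nonneg _).trans (hD g))⟩

end Sections

section PosMap

variable (B : BD geo G S' H U)

/-- Completely positive covariant maps `Bf → B(H)`. -/
structure PM (m : (𝔾 → ℂ) → (H →L[ℂ] H)) : Prop where
  add : ∀ f f' : 𝔾 → ℂ, Bf geo f → Bf geo f' → ∀ x, m (fun g => f g + f' g) x = m f x + m f' x
  smul : ∀ (c : ℂ) (f : 𝔾 → ℂ), Bf geo f → ∀ x, m (fun g => c * f g) x = c • m f x
  pos : ∀ (n : ℕ) (a : Fin n → Fin n → 𝔾 → ℂ), (∀ i j, Bf geo (a i j)) →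
    (∀ (g : 𝔾) (z : Fin n → ℂ), 0 ≤ (∑ i, ∑ j, (starRingEnd ℂ) (z i) * a i j g * z j).re) →
    ∀ u : Fin n → H, 0 ≤ (∑ i, ∑ j, inner ℂ (u i) (m (a i j) (u j))).re
  star : ∀ f : 𝔾 → ℂ, Bf geo f → ∀ x y, inner ℂ (m f x) y = inner ℂ x (m (fun g => (starRingEnd ℂ) (f g)) y)
  mulR : ∀ f f' : 𝔾 → ℂ, Bf geo f → Yf geo f' → ∀ x, m f (B.Xi f' x) = m (fun g => f g * f' g) x
  cov : ∀ (k : G) (f : 𝔾 → ℂ), Bf geo f → ∀ x, m (fun g => f ((B.ir k)⁻¹ * g)) (B.W k x) = B.W k (m f x)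
  CC : ∀ c ∈ B.CC, ∀ f : 𝔾 → ℂ, Bf geo f → ∀ x, c.1 (m f x) = m f (c.1 x)

theorem PM.xi : PM B B.Xi where
  add f f' hf hf' x := by rw [B.Xi_apply, B.Xi_apply, B.Xi_apply, B.E_add f f' hf hf', map_add]
  smul c f hf x := by rw [B.Xi_apply, B.Xi_apply, B.E_smul c f hf, map_smul]
  pos := B.Xi_pos
  star f hf x y := B.Xi_star hf x y
  mulR f f' hf hf' x := B.Xi_mul_right hf hf' x
  cov k f hf x := B.Xi_cov k hf x
  CC c hc f hf x := by
    refine ext_inner_right ℂ fun y => ?_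
    have h1 : (inner ℂ (c.1 (B.Xi f x)) y : ℂ) = inner ℂ (B.Xi f x) (c.1.symm y) := by
      conv_lhs => rw [← c.1.apply_symm_apply y]
      rw [LinearIsometryEquiv.inner_map_map]
    rw [h1, B.Xi_apply, B.Xi_apply, ContinuousLinearMap.adjoint_inner_left, ContinuousLinearMap.adjoint_inner_left]
    change inner ℂ (B.E f (B.T x)) (B.T (c.1.symm y)) = inner ℂ (B.E f (B.T (c.1 x))) (B.T y)
    have h2 : B.T y = c.2 (B.T (c.1.symm y)) := by rw [← B.CC_T c hc, c.1.apply_symm_apply]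
    rw [h2, B.CC_T c hc, ← B.CC_E c hc f hf, LinearIsometryEquiv.inner_map_map]

variable {B} {m : (𝔾 → ℂ) → (H →L[ℂ] H)}

namespace PM

theorem mulL (h : PM B m) {f f' : 𝔾 → ℂ} (hf : Yf geo f) (hf' : Bf geo f') (x : H) :
    B.Xi f (m f' x) = m (fun g => f g * f' g) x := by
  refine ext_inner_right ℂ fun y => ?_
  rw [B.Xi_star hf.bf, h.star f' hf', h.mulR _ _ (bfConj hf') (yfConj hf), h.star _ (bfMul hf.bf hf')]
  congr 3
  funext g
  rw [map_mul, mul_comm]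

theorem exists_one (h : PM B m) : ∃ z : ℂ, ∀ x, m (fun _ => 1) x = z • x := by
  refine B.erg _ (fun k x => ?_) fun c hc x => (h.CC c hc _ (bfConst 1) x).symm
  exact h.cov k _ (bfConst 1) x

/-- the total mass -/
noncomputable def mass (h : PM B m) : ℝ := h.exists_one.choose.re

theorem one_nonneg (h : PM B m) (x : H) : 0 ≤ (inner ℂ x (m (fun _ => 1) x)).re := by
  have h1 := h.pos 1 (fun _ _ _ => 1) (fun _ _ => bfConst 1) (fun g z => by
    simp only [Finset.univ_unique, Fin.default_eq_zero, Fin.isValue, Finset.sum_singleton, mul_one]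
    rw [mul_comm, Complex.mul_conj, Complex.ofReal_re]
    exact Complex.normSq_nonneg _) (fun _ => x)
  simpa using h1

theorem one_apply (h : PM B m) (x : H) : m (fun _ => 1) x = (h.mass : ℂ) • x := by
  have h1 := h.exists_one.choose_spec
  have h2 : h.exists_one.choose.im = 0 := by
    have := B.nontriv
    obtain ⟨y, hy⟩ := exists_ne (0 : H)
    have h3 := h.star _ (bfConst 1) y y
    simp only [map_one] at h3
    rw [h1, inner_smul_left, inner_smul_right] at h3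
    have h4 := mul_right_cancel₀ (inner_self_ne_zero.2 hy) h3
    exact Complex.conj_eq_iff_im.1 h4
  have h3 : (h.mass : ℂ) = h.exists_one.choose := by
    apply Complex.ext
    · rfl
    · rw [h2, Complex.ofReal_im]
  rw [h3]
  exact h1 x

theorem mass_nonneg (h : PM B m) : 0 ≤ h.mass := by
  have := B.nontriv
  obtain ⟨y, hy⟩ := exists_ne (0 : H)
  have h1 := h.one_nonneg y
  rw [h.one_apply, inner_smul_right, Complex.re_ofReal_mul] at h1
  have h2 : 0 < (inner ℂ y y : ℂ).re := by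
    have h3 := inner_self_eq_norm_sq (𝕜 := ℂ) y
    have h4 : (inner ℂ y y : ℂ).re = ‖y‖ ^ 2 := h3
    rw [h4]
    have : 0 < ‖y‖ := norm_pos_iff.2 hy
    positivity
  by_contra h3
  push Not at h3
  nlinarith

theorem zero (h : PM B m) (x : H) : m (fun _ => 0) x = 0 := by
  have h1 := h.smul 0 (fun _ => 1) (bfConst 1) x
  simpa using h1

theorem sum (h : PM B m) {ι : Type} (s : Finset ι) (f : ι → 𝔾 → ℂ) (hf : ∀ i, Bf geo (f i)) (x : H) :
    m (fun g => ∑ i ∈ s, f i g) x = ∑ i ∈ s, m (f i) x := by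
  classical
  have hb : ∀ s : Finset ι, Bf geo fun g => ∑ i ∈ s, f i g := by
    intro s
    induction s using Finset.induction with
    | empty => simpa using bfConst (geo := geo) 0
    | insert i s hi ih =>
      simp only [Finset.sum_insert hi]
      exact bfAdd (hf i) ih
  induction s using Finset.induction with
  | empty => simpa using h.zero x
  | insert i s hi ih =>
    simp only [Finset.sum_insert hi]
    rw [h.add _ _ (hf i) (hb s), ih]

/-- positivity for finite sets -/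
theorem pos' (h : PM B m) {ι : Type} (s : Finset ι) (a : ι → ι → 𝔾 → ℂ) (ha : ∀ i j, Bf geo (a i j))
    (hp : ∀ (g : 𝔾) (z : ι → ℂ), 0 ≤ (∑ i ∈ s, ∑ j ∈ s, (starRingEnd ℂ) (z i) * a i j g * z j).re) (u : ι → H) :
    0 ≤ (∑ i ∈ s, ∑ j ∈ s, inner ℂ (u i) (m (a i j) (u j))).re := by
  classical
  let e : s ≃ Fin s.card := s.equivFin
  have key : ∀ F : ι → ι → ℂ, ∑ i ∈ s, ∑ j ∈ s, F i j = ∑ i : Fin s.card, ∑ j : Fin s.card, F (e.symm i) (e.symm j) := by
    intro F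
    rw [← Finset.sum_coe_sort, ← e.symm.sum_comp]
    refine Finset.sum_congr rfl fun i _ => ?_
    rw [← Finset.sum_coe_sort, ← e.symm.sum_comp]
  rw [key]
  refine h.pos s.card (fun i j => a (e.symm i) (e.symm j)) (fun i j => ha _ _) (fun g z => ?_) fun i => u (e.symm i)
  have h := hp g (fun i => if hi : i ∈ s then z (e ⟨i, hi⟩) else 0)
  rw [key] at h
  have h2 : ∀ i : Fin s.card, (if hi : ((e.symm i : s) : ι) ∈ s then z (e ⟨(e.symm i : s), hi⟩) else 0) = z i := by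
    intro i
    rw [dif_pos (e.symm i).2]
    rw [Subtype.coe_eta, Equiv.apply_symm_apply]
  simp only [h2] at h
  exact h

/-- bounds -/
theorem norm_le (h : PM B m) {f : 𝔾 → ℂ} (hf : Bf geo f) {C : ℝ} (hC : ∀ g, ‖f g‖ ≤ C) (x : H) :
    ‖m f x‖ ≤ C * h.mass * ‖x‖ := by
  have hC0 : 0 ≤ C := (norm_nonneg _).trans (hC 1)
  -- the `2 × 2` matrix `(C, f; conj f, C)` is positive
  let a : Fin 2 → Fin 2 → 𝔾 → ℂ := ![![fun _ => (C : ℂ) * 1, f], ![fun g => (starRingEnd ℂ) (f g), fun _ => (C : ℂ) * 1]]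
  have ha : ∀ i j, Bf geo (a i j) := by
    intro i j
    fin_cases i <;> fin_cases j
    · exact bfSmul _ (bfConst 1)
    · exact hf
    · exact bfConj hf
    · exact bfSmul _ (bfConst 1)
  have hp : ∀ (g : 𝔾) (z : Fin 2 → ℂ), 0 ≤ (∑ i, ∑ j, (starRingEnd ℂ) (z i) * a i j g * z j).re := by
    intro g z
    simp only [Fin.sum_univ_two, a, Matrix.cons_val_zero, Matrix.cons_val_one, mul_one]
    have e1 : ((starRingEnd ℂ) (z 0) * (C : ℂ) * z 0).re = C * ‖z 0‖ ^ 2 := by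
      rw [mul_right_comm, mul_comm ((starRingEnd ℂ) (z 0)), Complex.mul_conj, Complex.normSq_eq_norm_sq, ← Complex.ofReal_mul,
        Complex.ofReal_re, mul_comm]
    have e2 : ((starRingEnd ℂ) (z 1) * (C : ℂ) * z 1).re = C * ‖z 1‖ ^ 2 := by
      rw [mul_right_comm, mul_comm ((starRingEnd ℂ) (z 1)), Complex.mul_conj, Complex.normSq_eq_norm_sq, ← Complex.ofReal_mul,
        Complex.ofReal_re, mul_comm]
    have e3 : ((starRingEnd ℂ) (z 1) * (starRingEnd ℂ) (f g) * z 0).re = ((starRingEnd ℂ) (z 0) * f g * z 1).re := by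
      rw [← Complex.conj_re]
      congr 1
      simp only [map_mul, Complex.conj_conj]
      ring
    have e4 : -(C * ‖z 0‖ * ‖z 1‖) ≤ ((starRingEnd ℂ) (z 0) * f g * z 1).re := by
      have h1 : ‖(starRingEnd ℂ) (z 0) * f g * z 1‖ ≤ C * ‖z 0‖ * ‖z 1‖ := by
        rw [norm_mul, norm_mul, RCLike.norm_conj]
        have := hC g
        calc ‖z 0‖ * ‖f g‖ * ‖z 1‖ ≤ ‖z 0‖ * C * ‖z 1‖ := by gcongr
          _ = _ := by ring
      have h2 := Complex.abs_re_le_norm ((starRingEnd ℂ) (z 0) * f g * z 1)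
      have h3 := (abs_le.1 (h2.trans h1)).1
      exact h3
    rw [Complex.add_re, Complex.add_re, Complex.add_re, e1, e2, e3]
    nlinarith [mul_nonneg hC0 (sq_nonneg (‖z 0‖ - ‖z 1‖))]
  -- so `|⟪y, m f x⟫| ≤ C mass (‖x‖² + ‖y‖²) / 2`
  have h1 : ∀ x y : H, -(2 * (inner ℂ y (m f x)).re) ≤ C * h.mass * (‖x‖ ^ 2 + ‖y‖ ^ 2) := by
    intro x y
    have h2 := h.pos 2 a ha hp ![y, x]
    simp only [Fin.sum_univ_two, a, Matrix.cons_val_zero, Matrix.cons_val_one] at h2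
    rw [h.smul _ _ (bfConst 1), h.smul _ _ (bfConst 1), h.one_apply, h.one_apply] at h2
    have e5 : (inner ℂ x (m (fun g => (starRingEnd ℂ) (f g)) y) : ℂ).re = (inner ℂ y (m f x)).re := by
      rw [← h.star f hf x y, ← inner_conj_symm, Complex.conj_re]
    have e6 : ∀ w : H, (inner ℂ w ((C : ℂ) • (h.mass : ℂ) • w)).re = C * h.mass * ‖w‖ ^ 2 := by
      intro w
      rw [inner_smul_right, inner_smul_right, inner_self_eq_norm_sq_to_K]
      have : (C : ℂ) * ((h.mass : ℂ) * ((‖w‖ : ℂ)) ^ 2) = ((C * h.mass * ‖w‖ ^ 2 : ℝ) : ℂ) := by push_cast; ring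
      exact (congrArg Complex.re this).trans (Complex.ofReal_re _)
    rw [Complex.add_re, Complex.add_re, Complex.add_re, e5, e6, e6] at h2
    linarith
  -- conclude
  have hκ := h.mass_nonneg
  rcases (norm_nonneg x).eq_or_lt with hx | hx
  · rw [norm_eq_zero.1 hx.symm, map_zero, norm_zero, mul_zero]
  rcases (norm_nonneg (m f x)).eq_or_lt with hy | hy
  · rw [← hy]; positivity
  set y : H := -((‖x‖ / ‖m f x‖ : ℝ) : ℂ) • m f x with hyd
  have h2 := h1 x y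
  have h3 : ‖y‖ = ‖x‖ := by
    rw [hyd, neg_smul, norm_neg, norm_smul, Complex.norm_real, Real.norm_of_nonneg (by positivity)]
    field_simp
  have h4 : (inner ℂ y (m f x)).re = -(‖x‖ * ‖m f x‖) := by
    rw [hyd, neg_smul, inner_neg_left, inner_smul_left, Complex.conj_ofReal, inner_self_eq_norm_sq_to_K]
    have : ((‖x‖ / ‖m f x‖ : ℝ) : ℂ) * ((‖m f x‖ : ℂ)) ^ 2 = ((‖x‖ * ‖m f x‖ : ℝ) : ℂ) := by
      push_cast
      field_simp
    rw [Complex.neg_re]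
    congr 1
    exact (congrArg Complex.re this).trans (Complex.ofReal_re _)
  rw [h3, h4] at h2
  have h5 : ‖x‖ * ‖m f x‖ ≤ ‖x‖ * (C * h.mass * ‖x‖) := by nlinarith
  exact le_of_mul_le_mul_left h5 hx

end PM

theorem sum_gram {ι : Type} {K : Type} [NormedAddCommGroup K] [InnerProductSpace ℂ K] (s : Finset ι) (w : ι → K) (z : ι → ℂ) :
    ∑ i ∈ s, ∑ j ∈ s, (starRingEnd ℂ) (z i) * inner ℂ (w i) (w j) * z j = ((‖∑ i ∈ s, z i • w i‖ ^ 2 : ℝ) : ℂ) := by
  have h1 : (inner ℂ (∑ i ∈ s, z i • w i) (∑ i ∈ s, z i • w i) : ℂ) = ((‖∑ i ∈ s, z i • w i‖ ^ 2 : ℝ) : ℂ) := by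
    rw [inner_self_eq_norm_sq_to_K]
    norm_cast
  rw [← h1, sum_inner]
  refine Finset.sum_congr rfl fun i _ => ?_
  rw [inner_sum]
  refine Finset.sum_congr rfl fun j _ => ?_
  rw [inner_smul_left, inner_smul_right]
  ring

variable {L : Type} [NormedAddCommGroup L] [InnerProductSpace ℂ L] {ρ : Rp 𝕊 L}

/-- the dilation of `m` -/
theorem exists_dil (h : PM B m) (ρ : Rp 𝕊 L) : ∃ (K : Type) (_ : NormedAddCommGroup K) (_ : InnerProductSpace ℂ K) (_ : CompleteSpace K)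
    (σ : BS geo ρ × H → K), ∀ p q, inner ℂ (σ p) (σ q) =
      (inner ℂ p.2 (m (fun g => inner ℂ ((p.1 : 𝔾 → L) g) ((q.1 : 𝔾 → L) g)) q.2) : ℂ) := by
  obtain ⟨K, i1, i2, i3, v, -, hk⟩ := exists_gram
    (fun p q : BS geo ρ × H => inner ℂ p.2 (m (fun g => inner ℂ ((p.1 : 𝔾 → L) g) ((q.1 : 𝔾 → L) g)) q.2)) (by
      intro p q
      rw [inner_conj_symm, h.star _ (BS.inner_bf p.1 q.1)]
      simp only [inner_conj_symm]) (by
      intro s c
      have e : ∑ p ∈ s, ∑ q ∈ s, (starRingEnd ℂ) (c p) *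
          inner ℂ p.2 (m (fun g => inner ℂ ((p.1 : 𝔾 → L) g) ((q.1 : 𝔾 → L) g)) q.2) * c q =
          ∑ p ∈ s, ∑ q ∈ s, inner ℂ (c p • p.2) (m (fun g => inner ℂ ((p.1 : 𝔾 → L) g) ((q.1 : 𝔾 → L) g)) (c q • q.2)) := by
        refine Finset.sum_congr rfl fun p _ => Finset.sum_congr rfl fun q _ => ?_
        rw [map_smul, inner_smul_left, inner_smul_right]
        ring
      rw [e]
      refine h.pos' s (fun p q g => inner ℂ ((p.1 : 𝔾 → L) g) ((q.1 : 𝔾 → L) g)) (fun p q => BS.inner_bf p.1 q.1)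
        (fun g z => ?_) fun p => c p • p.2
      rw [sum_gram s (fun p => (p.1 : 𝔾 → L) g) z, Complex.ofReal_re]
      positivity)
  exact ⟨K, i1, i2, i3, v, hk⟩

theorem exists_XX (h : PM B m) (a : BS geo ρ) : ∃ X : H →L[ℂ] Kt B ρ, (∀ (F : Sec geo ρ) (x' x : H),
    inner ℂ (tau B F x') (X x) = (inner ℂ x' (m (fun g => inner ℂ ((F : 𝔾 → L) g) ((a : 𝔾 → L) g)) x) : ℂ)) ∧
    ∀ (C : ℝ), (∀ g, ‖(a : 𝔾 → L) g‖ ≤ C) → ∀ x, ‖X x‖ ≤ C * h.mass * ‖x‖ := by
  obtain ⟨K, i1, i2, i3, σ, hσ⟩ := exists_dil h ρ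
  have hκ := h.mass_nonneg
  -- the section part of the dilation is `Kt`
  have hn : ∀ (s : Finset (Sec geo ρ × H)) (c : Sec geo ρ × H → ℂ),
      ‖∑ p ∈ s, c p • σ (ofSec p.1, p.2)‖ ≤ Real.sqrt h.mass * ‖∑ p ∈ s, c p • tau B p.1 p.2‖ := by
    intro s c
    have e1 : ∀ p q : Sec geo ρ × H, inner ℂ (σ (ofSec p.1, p.2)) (σ (ofSec q.1, q.2)) =
        ((h.mass : ℂ) * inner ℂ (tau B p.1 p.2) (tau B q.1 q.2) : ℂ) := by
      intro p q
      rw [hσ, inner_tau]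
      have e2 := h.mulR (fun _ => 1) _ (bfConst 1) (Sec.inner_yf p.1 q.1) q.2
      simp only [one_mul] at e2
      simp only [ofSec_apply]
      rw [← e2, h.one_apply, inner_smul_right]
    have e3 : ‖∑ p ∈ s, c p • σ (ofSec p.1, p.2)‖ ^ 2 = h.mass * ‖∑ p ∈ s, c p • tau B p.1 p.2‖ ^ 2 := by
      have e4 := sum_gram s (fun p : Sec geo ρ × H => σ (ofSec p.1, p.2)) c
      have e5 := sum_gram s (fun p : Sec geo ρ × H => tau B p.1 p.2) c
      have e6 : ((‖∑ p ∈ s, c p • σ (ofSec p.1, p.2)‖ ^ 2 : ℝ) : ℂ) = ((h.mass * ‖∑ p ∈ s, c p • tau B p.1 p.2‖ ^ 2 : ℝ) : ℂ) := by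
        rw [← e4, Complex.ofReal_mul, ← e5, Finset.mul_sum]
        refine Finset.sum_congr rfl fun p _ => ?_
        rw [Finset.mul_sum]
        refine Finset.sum_congr rfl fun q _ => ?_
        rw [e1]
        ring
      exact_mod_cast e6
    refine (sq_le_sq₀ (norm_nonneg _) (by positivity)).1 ?_
    rw [e3, mul_pow, Real.sq_sqrt hκ]
  obtain ⟨A, hA1, hA2⟩ := gram_clm (tot_tau B ρ) (fun p : Sec geo ρ × H => σ (ofSec p.1, p.2)) (Real.sqrt_nonneg _) hn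
  -- the linear map `x ↦ σ (a, x)`
  have hlin : ∀ y y' : K, y - y' ∈ (Submodule.span ℂ (Set.range σ)).topologicalClosure → (∀ p, inner ℂ (σ p) y = (inner ℂ (σ p) y' : ℂ)) → y = y' := by
    intro y y' hm hy
    have h1 : ∀ z ∈ (Submodule.span ℂ (Set.range σ)).topologicalClosure, inner ℂ z (y - y') = 0 := by
      intro z hz
      have h2 : y - y' ∈ (Submodule.span ℂ (Set.range σ))ᗮ := by
        rw [Submodule.mem_orthogonal]
        intro u hu
        induction hu using Submodule.span_induction with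
        | mem u hu =>
          obtain ⟨p, rfl⟩ := hu
          rw [inner_sub_right, hy, sub_self]
        | zero => exact inner_zero_left _
        | add u v _ _ hu hv => rw [inner_add_left, hu, hv, add_zero]
        | smul c u _ hu => rw [inner_smul_left, hu, mul_zero]
      rw [← Submodule.orthogonal_closure, Submodule.mem_orthogonal] at h2
      exact h2 z hz
    exact sub_eq_zero.1 (inner_self_eq_zero.1 (h1 _ hm))
  have hmem : ∀ p, σ p ∈ (Submodule.span ℂ (Set.range σ)).topologicalClosure := fun p =>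
    (Submodule.le_topologicalClosure _) (Submodule.subset_span ⟨p, rfl⟩)
  have hadd : ∀ x x' : H, σ (a, x + x') = σ (a, x) + σ (a, x') := by
    intro x x'
    refine hlin _ _ (Submodule.sub_mem _ (hmem _) (Submodule.add_mem _ (hmem _) (hmem _))) fun p => ?_
    rw [inner_add_right, hσ, hσ, hσ, map_add, inner_add_right]
  have hsm : ∀ (c : ℂ) (x : H), σ (a, c • x) = c • σ (a, x) := by
    intro c x
    refine hlin _ _ (Submodule.sub_mem _ (hmem _) (Submodule.smul_mem _ _ (hmem _))) fun p => ?_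
    rw [inner_smul_right, hσ, hσ, map_smul, inner_smul_right]
  have hbd : ∀ C : ℝ, (∀ g, ‖(a : 𝔾 → L) g‖ ≤ C) → ∀ x, ‖σ (a, x)‖ ≤ C * Real.sqrt h.mass * ‖x‖ := by
    intro C hC x
    have hC0 : 0 ≤ C := (norm_nonneg _).trans (hC 1)
    have h1 : ‖σ (a, x)‖ ^ 2 ≤ (C * Real.sqrt h.mass * ‖x‖) ^ 2 := by
      have h2 : ((‖σ (a, x)‖ ^ 2 : ℝ) : ℂ) = inner ℂ x (m (fun g => inner ℂ ((a : 𝔾 → L) g) ((a : 𝔾 → L) g)) x) := by
        rw [← hσ (a, x) (a, x), inner_self_eq_norm_sq_to_K]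
        norm_cast
      have h3 : ‖σ (a, x)‖ ^ 2 = ‖(inner ℂ x (m (fun g => inner ℂ ((a : 𝔾 → L) g) ((a : 𝔾 → L) g)) x) : ℂ)‖ := by
        rw [← h2, Complex.norm_real, Real.norm_of_nonneg (by positivity)]
      rw [h3]
      have h4 : ∀ g, ‖(inner ℂ ((a : 𝔾 → L) g) ((a : 𝔾 → L) g) : ℂ)‖ ≤ C * C := fun g =>
        (norm_inner_le_norm _ _).trans (mul_le_mul (hC g) (hC g) (norm_nonneg _) hC0)
      have h5 := h.norm_le (BS.inner_bf a a) h4 x
      calc _ ≤ ‖x‖ * ‖m (fun g => inner ℂ ((a : 𝔾 → L) g) ((a : 𝔾 → L) g)) x‖ := norm_inner_le_norm _ _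
        _ ≤ ‖x‖ * (C * C * h.mass * ‖x‖) := by gcongr
        _ = C ^ 2 * h.mass * ‖x‖ ^ 2 := by ring
        _ = _ := by rw [mul_pow, mul_pow, Real.sq_sqrt hκ]
    exact (sq_le_sq₀ (norm_nonneg _) (by positivity)).1 h1
  obtain ⟨C₀, hC₀⟩ := a.2.2.2
  let S : H →L[ℂ] K := LinearMap.mkContinuous { toFun := fun x => σ (a, x), map_add' := hadd, map_smul' := hsm }
    (C₀ * Real.sqrt h.mass) (hbd C₀ hC₀)
  have hS : ∀ x, S x = σ (a, x) := fun x => rfl
  refine ⟨(ContinuousLinearMap.adjoint A).comp S, fun F x' x => ?_, fun C hC x => ?_⟩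
  · change inner ℂ (tau B F x') (ContinuousLinearMap.adjoint A (S x)) = _
    rw [ContinuousLinearMap.adjoint_inner_right, hS]
    have h1 : A (tau B F x') = σ (ofSec F, x') := hA2 (F, x')
    rw [h1, hσ]
    rfl
  · change ‖ContinuousLinearMap.adjoint A (S x)‖ ≤ _
    have hC0 : 0 ≤ C := (norm_nonneg _).trans (hC 1)
    have h1 : ‖ContinuousLinearMap.adjoint A‖ ≤ Real.sqrt h.mass := by
      rw [LinearIsometryEquiv.norm_map]
      exact hA1
    calc ‖ContinuousLinearMap.adjoint A (S x)‖ ≤ Real.sqrt h.mass * ‖S x‖ := ContinuousLinearMap.le_of_opNorm_le _ h1 _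
      _ ≤ Real.sqrt h.mass * (C * Real.sqrt h.mass * ‖x‖) := by gcongr; exact hbd C hC x
      _ = C * (Real.sqrt h.mass * Real.sqrt h.mass) * ‖x‖ := by ring
      _ = _ := by rw [Real.mul_self_sqrt hκ]

/-- The operator with `(τ F)* (XX h a) = m ⟪F, a⟫`. -/
noncomputable def XX (h : PM B m) (a : BS geo ρ) : H →L[ℂ] Kt B ρ := (exists_XX h a).choose

theorem inner_XX (h : PM B m) (a : BS geo ρ) (F : Sec geo ρ) (x' x : H) : inner ℂ (tau B F x') (XX h a x) =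
    (inner ℂ x' (m (fun g => inner ℂ ((F : 𝔾 → L) g) ((a : 𝔾 → L) g)) x) : ℂ) := (exists_XX h a).choose_spec.1 F x' x

theorem norm_XX (h : PM B m) (a : BS geo ρ) {C : ℝ} (hC : ∀ g, ‖(a : 𝔾 → L) g‖ ≤ C) (x : H) : ‖XX h a x‖ ≤ C * h.mass * ‖x‖ :=
  (exists_XX h a).choose_spec.2 C hC x

/-- Vectors of `Kt` are determined by their inner products with the `τ F x`. -/
theorem ext_Kt {y y' : Kt B ρ} (h : ∀ (F : Sec geo ρ) (x : H), inner ℂ (tau B F x) y = (inner ℂ (tau B F x) y' : ℂ)) : y = y' := by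
  refine sub_eq_zero.1 (tot_tau B ρ _ fun p => ?_)
  rw [inner_sub_right, h, sub_self]

theorem XX_add (h : PM B m) (a b : BS geo ρ) (x : H) : XX h (a + b) x = XX h a x + XX h b x := by
  refine ext_Kt fun F x' => ?_
  rw [inner_add_right, inner_XX, inner_XX, inner_XX, ← inner_add_right,
    ← h.add _ _ (bfI F a) (bfI F b)]
  congr 3
  funext g
  exact inner_add_right _ _ _

theorem XX_smul (h : PM B m) (c : ℂ) (a : BS geo ρ) (x : H) : XX h (c • a) x = c • XX h a x := by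
  refine ext_Kt fun F x' => ?_
  rw [inner_smul_right, inner_XX, inner_XX, ← inner_smul_right, ← h.smul _ _ (bfI F a)]
  congr 3
  funext g
  exact inner_smul_right _ _ _

theorem XX_congr (h : PM B m) {a b : BS geo ρ} (hab : ∀ g, (a : 𝔾 → L) g = (b : 𝔾 → L) g) : XX h a = XX h b := by
  have : a = b := Subtype.ext (funext hab)
  rw [this]

/-- covariance -/
theorem XX_W (h : PM B m) (a : BS geo ρ) (k : G) (x : H) : XX h a (B.W k x) = WK B ρ k (XX h (lft a (B.ir k)) x) := by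
  refine ext_Kt fun F x' => ?_
  rw [inner_XX]
  have h1 : tau B F x' = WK B ρ k (tau B (act B ρ k⁻¹ F) (B.W k⁻¹ x')) := by
    rw [WK_tau]
    have h2 : B.W k (B.W k⁻¹ x') = x' := by
      have h3 : (B.W k * B.W k⁻¹) x' = x' := by rw [← map_mul, mul_inv_cancel, map_one]; rfl
      exact h3
    have h4 : act B ρ k (act B ρ k⁻¹ F) = F := by
      refine Subtype.ext (funext fun g => ?_)
      rw [act_apply, act_apply, map_inv, inv_inv, mul_inv_cancel_left]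
    rw [h2, h4]
  rw [h1, LinearIsometryEquiv.inner_map_map, inner_XX]
  have h5 := h.cov k (fun g => inner ℂ ((act B ρ k⁻¹ F : 𝔾 → L) g) ((lft a (B.ir k) : 𝔾 → L) g))
    (bfI (act B ρ k⁻¹ F) (lft a (B.ir k))) x
  have h6 : (fun g => inner ℂ ((act B ρ k⁻¹ F : 𝔾 → L) ((B.ir k)⁻¹ * g)) ((lft a (B.ir k) : 𝔾 → L) ((B.ir k)⁻¹ * g))) =
      fun g => (inner ℂ ((F : 𝔾 → L) g) ((a : 𝔾 → L) g) : ℂ) := by
    funext g
    rw [act_apply, map_inv, inv_inv, mul_inv_cancel_left]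
    change inner ℂ ((F : 𝔾 → L) g) ((a : 𝔾 → L) (B.ir k * ((B.ir k)⁻¹ * g))) = _
    rw [mul_inv_cancel_left]
  rw [h6] at h5
  rw [h5]
  have h7 : ∀ y : H, (inner ℂ x' (B.W k y) : ℂ) = inner ℂ (B.W k⁻¹ x') y := by
    intro y
    rw [← LinearIsometryEquiv.inner_map_map (B.W k) (B.W k⁻¹ x') y]
    have h3 : (B.W k * B.W k⁻¹) x' = x' := by rw [← map_mul, mul_inv_cancel, map_one]; rfl
    rw [show B.W k (B.W k⁻¹ x') = x' from h3]
  exact h7 _

theorem inner_lift {c : H ≃ₗᵢ[ℂ] H} (hc : B.CPhi c) (F : Sec geo ρ) (x' : H) (y : Kt B ρ) :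
    inner ℂ (tau B F x') (lift B ρ c y) = (inner ℂ (tau B F (c.symm x')) y : ℂ) := by
  have h1 : tau B F x' = lift B ρ c (tau B F (c.symm x')) := by rw [lift_tau B ρ hc, c.apply_symm_apply]
  rw [h1, LinearIsometryEquiv.inner_map_map]

theorem XX_lift (h : PM B m) (a : BS geo ρ) {c : (H ≃ₗᵢ[ℂ] H) × (U ≃ₗᵢ[ℂ] U)} (hc : c ∈ B.CC) (x : H) :
    XX h a (c.1 x) = lift B ρ c.1 (XX h a x) := by
  refine ext_Kt fun F x' => ?_
  rw [inner_XX, inner_lift (B.cphi_CC hc), inner_XX, ← h.CC c hc _ (bfI F a)]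
  conv_lhs => rw [← c.1.apply_symm_apply x']
  exact LinearIsometryEquiv.inner_map_map _ _ _

theorem inner_PhiK {f : 𝔾 → ℂ} (hf : Yf geo f) (F : Sec geo ρ) (x' : H) (y : Kt B ρ) :
    inner ℂ (tau B F x') (PhiK B ρ f y) = (inner ℂ (tau B F (B.Xi (fun g => (starRingEnd ℂ) (f g)) x')) y : ℂ) := by
  have h1 : (innerSL ℂ (tau B F x')).comp (PhiK B ρ f) =
      innerSL ℂ (tau B F (B.Xi (fun g => (starRingEnd ℂ) (f g)) x')) := by
    refine ext_tot (tot_tau B ρ) fun p => ?_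
    change inner ℂ (tau B F x') (PhiK B ρ f (tau B p.1 p.2)) =
      (inner ℂ (tau B F (B.Xi (fun g => (starRingEnd ℂ) (f g)) x')) (tau B p.1 p.2) : ℂ)
    rw [PhiK_tau B ρ hf, inner_tau, inner_tau, B.Xi_mul_right (Sec.inner_yf F p.1).bf hf, B.Xi_star (yfConj hf).bf,
      B.Xi_mul_left (yfConj (yfConj hf)) (Sec.inner_yf F p.1).bf]
    congr 3
    funext g
    rw [Complex.conj_conj, mul_comm]
  exact congrArg (fun C : Kt B ρ →L[ℂ] ℂ => C y) h1

theorem XX_PhiK (h : PM B m) (a : BS geo ρ) {f : 𝔾 → ℂ} (hf : Yf geo f) (x : H) :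
    XX h a (B.Xi f x) = PhiK B ρ f (XX h a x) := by
  refine ext_Kt fun F x' => ?_
  rw [inner_XX, inner_PhiK hf, inner_XX, h.mulR _ _ (bfI F a) hf, B.Xi_star (yfConj hf).bf,
    h.mulL (yfConj (yfConj hf)) (bfI F a)]
  congr 3
  funext g
  rw [Complex.conj_conj, mul_comm]

/-- multiplication by functions on `𝔾 / Q` -/
theorem XX_fmul (h : PM B m) (a : BS geo ρ) {f : 𝔾 → ℂ} (hf : Yf geo f) (x : H) :
    XX h (fml a hf.bf) x = XX h a (B.Xi f x) := by
  refine ext_Kt fun F x' => ?_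
  rw [inner_XX, inner_XX, h.mulR _ _ (bfI F a) hf]
  congr 3
  funext g
  change inner ℂ ((F : 𝔾 → L) g) (f g • (a : 𝔾 → L) g) = inner ℂ ((F : 𝔾 → L) g) ((a : 𝔾 → L) g) * f g
  rw [inner_smul_right, mul_comm]

/-- for a section `XX` is `τ` times the mass -/
theorem XX_ofSec (h : PM B m) (F : Sec geo ρ) (x : H) : XX h (ofSec F) x = (h.mass : ℂ) • tau B F x := by
  refine ext_Kt fun F' x' => ?_
  rw [inner_XX, inner_smul_right, inner_tau]
  have e2 := h.mulR (fun _ => 1) _ (bfConst 1) (Sec.inner_yf F' F) x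
  simp only [one_mul] at e2
  simp only [ofSec_apply]
  rw [← e2, h.one_apply, inner_smul_right]

end PosMap

section Omega

variable {L : Type} [NormedAddCommGroup L] [InnerProductSpace ℂ L]

/-- the block of `r (g q)` -/
theorem nb_r_mul (g : 𝔾) (q : geo.Q) : ∃ k ∈ 𝕂, geo.nb (geo.r (g * q)) = k * geo.nb (geo.r g) * geo.nb q := by
  have h1 := geo.KK (g * (geo.r g : 𝔾)⁻¹) (geo.kr g) (g * q * (geo.r (g * q) : 𝔾)⁻¹) (geo.kr (g * q))
    (geo.r (g * q) * (geo.r g * q)⁻¹) (by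
      push_cast
      group)
  refine ⟨_, h1, ?_⟩
  rw [map_mul, map_inv, map_mul]
  group

/-- The section `g ↦ ρ(nb (r g))⁻¹ v` for a `𝕂`-fixed vector `v`. -/
def Om (geo : Geo 𝔾 𝕊 𝕂) (ρ : Rp 𝕊 L) (v : L) (hv : ∀ h ∈ 𝕂, ρ.U h v = v) : Sec geo ρ :=
  ⟨fun g => ρ.U (geo.nb (geo.r g))⁻¹ v, (ρ.cont v).comp ((geo.nbc.comp geo.rc).inv), fun g q => by
    obtain ⟨k, hk, h1⟩ := nb_r_mul (geo := geo) g q
    change ρ.U (geo.nb (geo.r (g * q)))⁻¹ v = ρ.U (geo.nb q)⁻¹ (ρ.U (geo.nb (geo.r g))⁻¹ v)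
    rw [h1, mul_inv_rev, mul_inv_rev, map_mul, map_mul]
    change ρ.U (geo.nb q)⁻¹ (ρ.U (geo.nb (geo.r g))⁻¹ (ρ.U k⁻¹ v)) = _
    rw [hv _ (𝕂.inv_mem hk)]⟩

theorem Om_apply (ρ : Rp 𝕊 L) (v : L) (hv : ∀ h ∈ 𝕂, ρ.U h v = v) (g : 𝔾) :
    (Om geo ρ v hv : 𝔾 → L) g = ρ.U (geo.nb (geo.r g))⁻¹ v := rfl

variable (B : BD geo G S' H U)

theorem norm_tau_Om (ρ : Rp 𝕊 L) (v : L) (hv : ∀ h ∈ 𝕂, ρ.U h v = v) (x : H) : ‖tau B (Om geo ρ v hv) x‖ = ‖v‖ * ‖x‖ := by
  have h1 : (inner ℂ (tau B (Om geo ρ v hv) x) (tau B (Om geo ρ v hv) x) : ℂ) = ((‖v‖ ^ 2 * ‖x‖ ^ 2 : ℝ) : ℂ) := by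
    rw [inner_tau]
    have h2 : (fun g => inner ℂ ((Om geo ρ v hv : 𝔾 → L) g) ((Om geo ρ v hv : 𝔾 → L) g)) = fun _ => ((‖v‖ ^ 2 : ℝ) : ℂ) * 1 := by
      funext g
      rw [Om_apply, LinearIsometryEquiv.inner_map_map, inner_self_eq_norm_sq_to_K]
      push_cast
      rw [mul_one]
      rfl
    have h3 : B.Xi (fun _ => 1) x = x := by
      refine ext_inner_right ℂ fun y => ?_
      rw [B.Xi_apply, ContinuousLinearMap.adjoint_inner_left, B.E_one]
      exact B.T.inner_map_map _ _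
    rw [h2, (PM.xi B).smul _ _ (bfConst 1), h3, inner_smul_right, inner_self_eq_norm_sq_to_K]
    push_cast
    rfl
  have h0 : ((‖tau B (Om geo ρ v hv) x‖ ^ 2 : ℝ) : ℂ) = ((‖v‖ ^ 2 * ‖x‖ ^ 2 : ℝ) : ℂ) := by
    rw [← h1, inner_self_eq_norm_sq_to_K]
    norm_cast
  have h2 : ‖tau B (Om geo ρ v hv) x‖ ^ 2 = (‖v‖ * ‖x‖) ^ 2 := by
    rw [mul_pow]
    exact Complex.ofReal_injective h0
  exact (sq_eq_sq₀ (norm_nonneg _) (by positivity)).1 h2

theorem Xi_one (x : H) : B.Xi (fun _ => 1) x = x := by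
  refine ext_inner_right ℂ fun y => ?_
  rw [B.Xi_apply, ContinuousLinearMap.adjoint_inner_left, B.E_one]
  exact B.T.inner_map_map _ _

theorem mass_xi : (PM.xi B).mass = 1 := by
  have := B.nontriv
  obtain ⟨y, hy⟩ := exists_ne (0 : H)
  have h1 := (PM.xi B).one_apply y
  rw [Xi_one] at h1
  have h2 : (1 - ((PM.xi B).mass : ℂ)) • y = 0 := by rw [sub_smul, one_smul, ← h1, sub_self]
  have h3 := (smul_eq_zero.1 h2).resolve_right hy
  have h4 : ((PM.xi B).mass : ℂ) = 1 := (sub_eq_zero.1 h3).symm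
  exact_mod_cast h4

/-- strong convergence of `Xi` -/
theorem Xi_lim (f : ℕ → 𝔾 → ℂ) (C : ℝ) (hf : ∀ j, Bf geo (f j)) (hC : ∀ j g, ‖f j g‖ ≤ C)
    (hlim : ∀ D : Set 𝕊, IsCompact D → ∀ ε : ℝ, 0 < ε → ∀ᶠ j in atTop, ∀ g, geo.nb (geo.r g) ∈ D → ‖f j g‖ ≤ ε) (x : H) :
    Tendsto (fun j => B.Xi (f j) x) atTop (𝓝 0) := by
  have h1 := B.E_lim f C hf hC hlim (B.T x)
  have h2 := (ContinuousLinearMap.adjoint B.T.toContinuousLinearMap).continuous.tendsto 0
  rw [map_zero] at h2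
  exact h2.comp h1

end Omega

end Pool.Agent.Helper16.FP
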