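import Pool.Agent.Helper16.FP.Vac
import Pool.Agent.Helper35.FP.MT

/-!
# Project FP, block VAC, part 2: elements of `MM`

`Xm h v hv`: the element of `MM B ρ` with `cmp F (Xm h v hv) = m ⟪F, v⟫`, `v` a `𝕂`-fixed vector, `h : PM B m`. Naturality (`mulF_XX`, `pushM_Xm`), `beta_Xm` (conjugation of `m`),
convex combinations, `tendsto_norm_Xm` (the norms tend to one for almost invariant vectors), `tendsto_pushK_Xm`.
-/

set_option autoImplicit false
set_option linter.unusedSectionVars false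

open Filter Topology

namespace Pool.Agent.Helper16.FP

open Pool.Agent.Helper35.FP

variable {𝔾 𝕊 : Type} [Group 𝔾] [TopologicalSpace 𝔾] [IsTopologicalGroup 𝔾] [Group 𝕊] [TopologicalSpace 𝕊] [IsTopologicalGroup 𝕊]
  {𝕂 : Subgroup 𝕊} {geo : Geo 𝔾 𝕊 𝕂} {G S' H U : Type} [Group G] [Group S'] [TopologicalSpace S'] [IsTopologicalGroup S']
  [NormedAddCommGroup H] [InnerProductSpace ℂ H] [CompleteSpace H]
  [NormedAddCommGroup U] [InnerProductSpace ℂ U] [CompleteSpace U]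

section A

variable {B : BD geo G S' H U} {m m' : (𝔾 → ℂ) → (H →L[ℂ] H)} {L L' : Type} [NormedAddCommGroup L] [InnerProductSpace ℂ L]
  [NormedAddCommGroup L'] [InnerProductSpace ℂ L'] {ρ : Rp 𝕊 L} {ρ' : Rp 𝕊 L'}

theorem XX_cst_mem (h : PM B m) (v : L) (hv : ∀ k ∈ 𝕂, ρ.U k v = v) : XX h (cst (geo := geo) ρ v hv) ∈ MM B ρ :=
  ⟨fun k x => by
    rw [XX_W]
    congr 2, fun c hc x => XX_lift h _ hc x, fun f hf x => XX_PhiK h _ hf x⟩

/-- The element of `MM B ρ` given by a positive map and a `𝕂`-fixed vector. -/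
noncomputable def Xm (h : PM B m) (v : L) (hv : ∀ k ∈ 𝕂, ρ.U k v = v) : MM B ρ := ⟨XX h (cst ρ v hv), XX_cst_mem h v hv⟩

theorem Xm_apply (h : PM B m) (v : L) (hv : ∀ k ∈ 𝕂, ρ.U k v = v) (x : H) :
    ((Xm h v hv : MM B ρ) : H →L[ℂ] Kt B ρ) x = XX h (cst ρ v hv) x := rfl

theorem cmp_Xm (h : PM B m) (v : L) (hv : ∀ k ∈ 𝕂, ρ.U k v = v) (F : Sec geo ρ) (x : H) :
    cmp F (Xm h v hv) x = m (fun g => inner ℂ ((F : 𝔾 → L) g) v) x := by
  refine ext_inner_left ℂ fun x' => ?_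
  rw [inner_cmp, Xm_apply, inner_XX]
  rfl

theorem norm_Xm_le (h : PM B m) (v : L) (hv : ∀ k ∈ 𝕂, ρ.U k v = v) : ‖(Xm h v hv : MM B ρ)‖ ≤ ‖v‖ * h.mass := by
  have := B.nontriv
  obtain ⟨y, hy⟩ := exists_ne (0 : H)
  have h1 := norm_XX h (cst (geo := geo) ρ v hv) (C := ‖v‖) (fun _ => le_rfl) y
  rw [← Xm_apply, norm_MM] at h1
  exact le_of_mul_le_mul_right h1 (norm_pos_iff.2 hy)

theorem Xm_add (h : PM B m) (v w : L) (hv : ∀ k ∈ 𝕂, ρ.U k v = v) (hw : ∀ k ∈ 𝕂, ρ.U k w = w)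
    (hvw : ∀ k ∈ 𝕂, ρ.U k (v + w) = v + w) : (Xm h (v + w) hvw : MM B ρ) = Xm h v hv + Xm h w hw := by
  refine Subtype.ext (ContinuousLinearMap.ext fun x => ?_)
  exact XX_add h (cst ρ v hv) (cst ρ w hw) x

theorem Xm_smul (h : PM B m) (c : ℂ) (v : L) (hv : ∀ k ∈ 𝕂, ρ.U k v = v) (hcv : ∀ k ∈ 𝕂, ρ.U k (c • v) = c • v) :
    (Xm h (c • v) hcv : MM B ρ) = c • Xm h v hv := by
  refine Subtype.ext (ContinuousLinearMap.ext fun x => ?_)
  exact XX_smul h c (cst ρ v hv) x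

/-- Fields act on bounded sections. -/
def fap (o : Fd geo ρ ρ') (a : BS geo ρ) : BS geo ρ' := ⟨fun g => o.O g ((a : 𝔾 → L) g), o.cont2 a.2.1, fun g q hq => by
    change o.O (g * q) ((a : 𝔾 → L) (g * q)) = _
    rw [a.2.2.1 g q hq, o.inv], by
  obtain ⟨C, hC0, hC⟩ := o.bdd
  obtain ⟨D, hD⟩ := a.2.2.2
  exact ⟨C * D, fun g => (ContinuousLinearMap.le_of_opNorm_le _ (hC g) _).trans (mul_le_mul_of_nonneg_left (hD g) hC0)⟩⟩

/-- naturality -/
theorem mulF_XX (h : PM B m) (o : Fd geo ρ ρ') (o' : Fd geo ρ' ρ) (ho : ∀ g w w', (inner ℂ (o.O g w) w' : ℂ) = inner ℂ w (o'.O g w'))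
    (a : BS geo ρ) (x : H) : mulF B o (XX h a x) = XX h (fap o a) x := by
  refine ext_Kt fun F x' => ?_
  have ho' : ∀ g w w', (inner ℂ (o'.O g w) w' : ℂ) = inner ℂ w (o.O g w') := fun g w w' => by
    rw [← inner_conj_symm, ← ho, inner_conj_symm]
  rw [← inner_mulF B o' o ho', mulF_tau, inner_XX, inner_XX]
  congr 3
  funext g
  exact ho' g _ _

theorem push_XX [CompleteSpace L] [CompleteSpace L'] (h : PM B m) {A : L →L[ℂ] L'} (hA : Itw ρ ρ' A) (a : BS geo ρ) (x : H) :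
    push B hA (XX h a x) = XX h (fap (Fd.const hA) a) x :=
  mulF_XX h (Fd.const hA) (Fd.const hA.adj) (fun _ w w' => (ContinuousLinearMap.adjoint_inner_right A w w').symm) a x

theorem pushM_Xm [CompleteSpace L] [CompleteSpace L'] (h : PM B m) {A : L →L[ℂ] L'} (hA : Itw ρ ρ' A) (v : L)
    (hv : ∀ k ∈ 𝕂, ρ.U k v = v) (hAv : ∀ k ∈ 𝕂, ρ'.U k (A v) = A v) : pushM B hA (Xm h v hv) = Xm h (A v) hAv := by
  refine Subtype.ext (ContinuousLinearMap.ext fun x => ?_)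
  rw [pushM_apply]
  exact push_XX h hA _ x

theorem ofK_adj [CompleteSpace L] [CompleteSpace L'] {A : L →L[ℂ] L'} (hA : ItK 𝕂 ρ ρ' A) (g : 𝔾) (w : L) (w' : L') :
    (inner ℂ ((Fd.ofK (geo := geo) hA).O g w) w' : ℂ) = inner ℂ w ((Fd.ofK (geo := geo) hA.adj).O g w') := by
  change inner ℂ (ρ'.U (geo.nb (geo.r g))⁻¹ (A (ρ.U (geo.nb (geo.r g)) w))) w' =
    inner ℂ w (ρ.U (geo.nb (geo.r g))⁻¹ (ContinuousLinearMap.adjoint A (ρ'.U (geo.nb (geo.r g)) w')))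
  have e1 : ∀ (h : 𝕊) (a b : L'), (inner ℂ (ρ'.U h⁻¹ a) b : ℂ) = inner ℂ a (ρ'.U h b) := by
    intro h a b
    rw [← LinearIsometryEquiv.inner_map_map (ρ'.U h)]
    congr 1
    have : (ρ'.U h * ρ'.U h⁻¹) a = a := by rw [← map_mul, mul_inv_cancel, map_one]; rfl
    exact this
  have e2 : ∀ (h : 𝕊) (a b : L), (inner ℂ (ρ.U h a) b : ℂ) = inner ℂ a (ρ.U h⁻¹ b) := by
    intro h a b
    rw [← LinearIsometryEquiv.inner_map_map (ρ.U h) a]
    congr 1
    have : (ρ.U h * ρ.U h⁻¹) b = b := by rw [← map_mul, mul_inv_cancel, map_one]; rfl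
    exact this.symm
  rw [e1, ← e2, ContinuousLinearMap.adjoint_inner_right]

theorem pushK_XX [CompleteSpace L] [CompleteSpace L'] (h : PM B m) {A : L →L[ℂ] L'} (hA : ItK 𝕂 ρ ρ' A) (a : BS geo ρ) (x : H) :
    pushK B hA (XX h a x) = XX h (fap (Fd.ofK hA) a) x :=
  mulF_XX h (Fd.ofK hA) (Fd.ofK hA.adj) (fun g w w' => ofK_adj hA g w w') a x

end A

section V

variable {B : BD geo G S' H U} {m m' : (𝔾 → ℂ) → (H →L[ℂ] H)} {L : Type} [NormedAddCommGroup L] [InnerProductSpace ℂ L] {ρ : Rp 𝕊 L}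

/-- `V s⁻¹` is inverse to `V s` -/
theorem V_inv (B : BD geo G S' H U) (s : S') (x : H) : B.V s (B.V s⁻¹ x) = x := by
  have : (B.V s * B.V s⁻¹) x = x := by rw [← map_mul, mul_inv_cancel, map_one]; rfl
  exact this

theorem V_inv' (B : BD geo G S' H U) (s : S') (x : H) : B.V s⁻¹ (B.V s x) = x := by
  have : (B.V s⁻¹ * B.V s) x = x := by rw [← map_mul, inv_mul_cancel, map_one]; rfl
  exact this

theorem inner_V (B : BD geo G S' H U) (s : S') (x y : H) : (inner ℂ (B.V s x) y : ℂ) = inner ℂ x (B.V s⁻¹ y) := by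
  conv_lhs => rw [← V_inv B s y]
  exact LinearIsometryEquiv.inner_map_map _ _ _

/-- conjugation by `V s` -/
noncomputable def conjV (B : BD geo G S' H U) (s : S') (m : (𝔾 → ℂ) → (H →L[ℂ] H)) (f : 𝔾 → ℂ) : H →L[ℂ] H :=
  ((B.V s).toContinuousLinearEquiv : H →L[ℂ] H).comp ((m f).comp ((B.V s⁻¹).toContinuousLinearEquiv : H →L[ℂ] H))

theorem conjV_apply (s : S') (m : (𝔾 → ℂ) → (H →L[ℂ] H)) (f : 𝔾 → ℂ) (x : H) : conjV B s m f x = B.V s (m f (B.V s⁻¹ x)) := rfl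

theorem PM.conj (h : PM B m) (s : S') : PM B (conjV B s m) where
  add f f' hf hf' x := by rw [conjV_apply, conjV_apply, conjV_apply, h.add f f' hf hf', map_add]
  smul c f hf x := by rw [conjV_apply, conjV_apply, h.smul c f hf, map_smul]
  pos n a ha hp u := by
    have h1 := h.pos n a ha hp fun i => B.V s⁻¹ (u i)
    have h2 : (∑ i, ∑ j, inner ℂ (u i) (conjV B s m (a i j) (u j))) =
        ∑ i, ∑ j, (inner ℂ (B.V s⁻¹ (u i)) (m (a i j) (B.V s⁻¹ (u j))) : ℂ) := by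
      refine Finset.sum_congr rfl fun i _ => Finset.sum_congr rfl fun j _ => ?_
      rw [conjV_apply, inner_V, inv_inv]
    rw [h2]
    exact h1
  star f hf x y := by
    rw [conjV_apply, conjV_apply, inner_V, h.star f hf, inner_V, inv_inv]
  mulR f f' hf hf' x := by
    rw [conjV_apply, conjV_apply, ← h.mulR f f' hf hf']
    have h1 := B.VΦ s⁻¹ f' hf' x
    rw [← B.Xi_apply, ← B.Xi_apply] at h1
    rw [h1]
  cov k f hf x := by
    rw [conjV_apply, conjV_apply, B.VW, h.cov k f hf, B.VW]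
  CC c hc f hf x := by
    rw [conjV_apply, conjV_apply]
    obtain ⟨c', hc', h1⟩ := B.VCC s⁻¹ c hc
    -- `V s⁻¹ c = c' V s⁻¹`, so `c V s = V s c'`
    have h2 : ∀ y, c.1 (B.V s y) = B.V s (c'.1 y) := by
      intro y
      have h3 := h1 (B.V s y)
      rw [V_inv'] at h3
      rw [← h3, V_inv]
    rw [h2, h.CC c' hc' f hf, h1]

theorem PM.mass_eq (h : PM B m) {κ : ℝ} (hκ : ∀ x, m (fun _ => 1) x = (κ : ℂ) • x) : h.mass = κ := by
  have := B.nontriv
  obtain ⟨y, hy⟩ := exists_ne (0 : H)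
  have h1 := h.one_apply y
  rw [hκ] at h1
  have h2 : ((κ : ℂ) - (h.mass : ℂ)) • y = 0 := by rw [sub_smul, h1, sub_self]
  have h3 := (smul_eq_zero.1 h2).resolve_right hy
  have h4 : (κ : ℂ) = (h.mass : ℂ) := sub_eq_zero.1 h3
  exact_mod_cast h4.symm

theorem PM.mass_conj (h : PM B m) (s : S') : (h.conj s).mass = h.mass := by
  refine (h.conj s).mass_eq fun x => ?_
  rw [conjV_apply, h.one_apply, map_smul, V_inv]

theorem beta_Xm (h : PM B m) (s : S') (v : L) (hv : ∀ k ∈ 𝕂, ρ.U k v = v) : beta B ρ s (Xm h v hv) = Xm (h.conj s) v hv := by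
  refine MM_ext fun F => ContinuousLinearMap.ext fun x => ?_
  rw [cmp_beta, cmp_Xm, cmp_Xm, conjV_apply]

/-- sums -/
theorem PM.lin (h : PM B m) (h' : PM B m') {a b : ℝ} (ha : 0 ≤ a) (hb : 0 ≤ b) : PM B (fun f => (a : ℂ) • m f + (b : ℂ) • m' f) where
  add f f' hf hf' x := by
    simp only [_root_.add_apply, _root_.smul_apply]
    rw [h.add f f' hf hf', h'.add f f' hf hf', smul_add, smul_add]
    abel
  smul c f hf x := by
    simp only [_root_.add_apply, _root_.smul_apply]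
    rw [h.smul c f hf, h'.smul c f hf, smul_add, smul_comm c, smul_comm c]
  pos n d hd hp u := by
    have h1 := h.pos n d hd hp u
    have h2 := h'.pos n d hd hp u
    have h3 : (∑ i, ∑ j, (inner ℂ (u i) (((a : ℂ) • m (d i j) + (b : ℂ) • m' (d i j)) (u j)) : ℂ)) =
        (a : ℂ) * (∑ i, ∑ j, inner ℂ (u i) (m (d i j) (u j))) + (b : ℂ) * (∑ i, ∑ j, inner ℂ (u i) (m' (d i j) (u j))) := by
      rw [Finset.mul_sum, Finset.mul_sum, ← Finset.sum_add_distrib]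
      refine Finset.sum_congr rfl fun i _ => ?_
      rw [Finset.mul_sum, Finset.mul_sum, ← Finset.sum_add_distrib]
      refine Finset.sum_congr rfl fun j _ => ?_
      rw [_root_.add_apply, _root_.smul_apply, _root_.smul_apply, inner_add_right, inner_smul_right, inner_smul_right]
    rw [h3, Complex.add_re, Complex.re_ofReal_mul, Complex.re_ofReal_mul]
    positivity
  star f hf x y := by
    simp only [_root_.add_apply, _root_.smul_apply]
    rw [inner_add_left, inner_add_right, inner_smul_left, inner_smul_left, inner_smul_right, inner_smul_right, h.star f hf,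
      h'.star f hf, Complex.conj_ofReal, Complex.conj_ofReal]
  mulR f f' hf hf' x := by
    simp only [_root_.add_apply, _root_.smul_apply]
    rw [h.mulR f f' hf hf', h'.mulR f f' hf hf']
  cov k f hf x := by
    simp only [_root_.add_apply, _root_.smul_apply]
    rw [h.cov k f hf, h'.cov k f hf, map_add, map_smul, map_smul]
  CC c hc f hf x := by
    simp only [_root_.add_apply, _root_.smul_apply]
    rw [map_add, map_smul, map_smul, h.CC c hc f hf, h'.CC c hc f hf]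

theorem PM.mass_lin (h : PM B m) (h' : PM B m') {a b : ℝ} (ha : 0 ≤ a) (hb : 0 ≤ b) :
    (h.lin h' ha hb).mass = a * h.mass + b * h'.mass := by
  refine (h.lin h' ha hb).mass_eq fun x => ?_
  rw [_root_.add_apply, _root_.smul_apply, _root_.smul_apply, h.one_apply, h'.one_apply, smul_smul, smul_smul, ← add_smul]
  push_cast
  rfl

theorem Xm_lin (h : PM B m) (h' : PM B m') {a b : ℝ} (ha : 0 ≤ a) (hb : 0 ≤ b) (v : L) (hv : ∀ k ∈ 𝕂, ρ.U k v = v) :
    (Xm (h.lin h' ha hb) v hv : MM B ρ) = (a : ℂ) • Xm h v hv + (b : ℂ) • Xm h' v hv := by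
  refine MM_ext fun F => ContinuousLinearMap.ext fun x => ?_
  refine ext_inner_left ℂ fun x' => ?_
  rw [cmp_Xm, _root_.add_apply, _root_.smul_apply, _root_.smul_apply, inner_add_right, inner_smul_right, inner_smul_right, inner_cmp]
  have e : (((a : ℂ) • Xm h v hv + (b : ℂ) • Xm h' v hv : MM B ρ) : H →L[ℂ] Kt B ρ) x =
      (a : ℂ) • ((Xm h v hv : MM B ρ) : H →L[ℂ] Kt B ρ) x + (b : ℂ) • ((Xm h' v hv : MM B ρ) : H →L[ℂ] Kt B ρ) x := rfl
  rw [e, inner_add_right, inner_smul_right, inner_smul_right, ← inner_cmp, ← inner_cmp, cmp_Xm, cmp_Xm]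

end V

section N

variable (B : BD geo G S' H U)

theorem re_inner_real {L : Type} [NormedAddCommGroup L] [InnerProductSpace ℂ L] (x : L) : (inner ℂ x x : ℂ) = ((‖x‖ ^ 2 : ℝ) : ℂ) := by
  rw [inner_self_eq_norm_sq_to_K]
  push_cast
  rfl

theorem norm_sub_sq_le {K : Type} [NormedAddCommGroup K] [InnerProductSpace ℂ K] {a b : K} {C : ℝ} (ha : ‖a‖ ≤ C) (hb : ‖b‖ ≤ C) :
    ‖a - b‖ ^ 2 ≤ 2 * (C ^ 2 - (inner ℂ b a : ℂ).re) := by
  have h1 := norm_sub_sq (𝕜 := ℂ) a b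
  have h2 : RCLike.re (inner ℂ a b : ℂ) = (inner ℂ b a : ℂ).re := by
    rw [← inner_conj_symm]
    exact Complex.conj_re _
  rw [h1, h2]
  have h3 : ‖a‖ ^ 2 ≤ C ^ 2 := pow_le_pow_left₀ (norm_nonneg _) ha 2
  have h4 : ‖b‖ ^ 2 ≤ C ^ 2 := pow_le_pow_left₀ (norm_nonneg _) hb 2
  linarith

/-- `Xi` of functions which tend to one -/
theorem tendsto_Xi_one (f : ℕ → 𝔾 → ℂ) (C : ℝ) (hf : ∀ j, Bf geo (f j)) (hC : ∀ j g, ‖f j g‖ ≤ C) (c : ℂ)
    (hlim : ∀ D : Set 𝕊, IsCompact D → ∀ ε : ℝ, 0 < ε → ∀ᶠ j in atTop, ∀ g, geo.nb (geo.r g) ∈ D → ‖f j g - c‖ ≤ ε) (x : H) :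
    Tendsto (fun j => B.Xi (f j) x) atTop (𝓝 (c • x)) := by
  have h1 := Xi_lim B (fun j g => f j g + (-c) * 1) (C + ‖c‖) (fun j => bfAdd (hf j) (bfSmul _ (bfConst 1)))
    (fun j g => (norm_add_le _ _).trans (add_le_add (hC j g) (by rw [mul_one, norm_neg])))
    (fun D hD ε hε => (hlim D hD ε hε).mono fun j hj g hg => by
      rw [mul_one, ← sub_eq_add_neg]
      exact hj g hg) x
  have h2 : ∀ j, B.Xi (fun g => f j g + (-c) * 1) x = B.Xi (f j) x - c • x := by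
    intro j
    rw [(PM.xi B).add _ _ (hf j) (bfSmul _ (bfConst 1)), (PM.xi B).smul _ _ (bfConst 1), Xi_one, neg_smul, sub_eq_add_neg]
  simp only [h2] at h1
  have h3 := h1.add_const (c • x)
  simpa using h3

theorem inner_Om_XX {m : (𝔾 → ℂ) → (H →L[ℂ] H)} (h : PM B m) {L : Type} [NormedAddCommGroup L] [InnerProductSpace ℂ L] (ρ : Rp 𝕊 L) (v : L)
    (hv : ∀ k ∈ 𝕂, ρ.U k v = v) (x' x : H) : inner ℂ (tau B (Om geo ρ v hv) x') (XX h (cst ρ v hv) x) =
      (inner ℂ x' (m (fun g => inner ℂ (ρ.U (geo.nb (geo.r g))⁻¹ v) v) x) : ℂ) := inner_XX h _ _ x' x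

section seq

variable {L : ℕ → Type} [∀ j, NormedAddCommGroup (L j)] [∀ j, InnerProductSpace ℂ (L j)] (ρ : ∀ j, Rp 𝕊 (L j)) (v : ∀ j, L j)
  (hv : ∀ j, ∀ k ∈ 𝕂, (ρ j).U k (v j) = v j) (hv1 : ∀ j, ‖v j‖ = 1)
  (hlim : ∀ D : Set 𝕊, IsCompact D → ∀ ε : ℝ, 0 < ε → ∀ᶠ j in atTop, ∀ k ∈ D, ‖(inner ℂ ((ρ j).U k (v j)) (v j) : ℂ) - 1‖ ≤ ε)

include hv1 hlim in
theorem tendsto_inner_Om (x : H) :
    Tendsto (fun j => (inner ℂ (tau B (Om geo (ρ j) (v j) (hv j)) x) (XX (PM.xi B) (cst (ρ j) (v j) (hv j)) x) : ℂ)) atTop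
      (𝓝 ((‖x‖ ^ 2 : ℝ) : ℂ)) := by
  have h1 := tendsto_Xi_one B (fun j g => inner ℂ ((ρ j).U (geo.nb (geo.r g))⁻¹ (v j)) (v j)) 1
    (fun j => bfI (Om geo (ρ j) (v j) (hv j)) (cst (ρ j) (v j) (hv j))) (fun j g => by
      refine (norm_inner_le_norm _ _).trans ?_
      rw [LinearIsometryEquiv.norm_map, hv1, mul_one]) 1 (fun D hD ε hε => by
      refine (hlim D hD ε hε).mono fun j hj g hg => ?_
      have h2 := hj _ hg
      have h3 : (inner ℂ ((ρ j).U (geo.nb (geo.r g))⁻¹ (v j)) (v j) : ℂ) = inner ℂ (v j) ((ρ j).U (geo.nb (geo.r g)) (v j)) := by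
        rw [← LinearIsometryEquiv.inner_map_map ((ρ j).U (geo.nb (geo.r g)))]
        congr 1
        have : ((ρ j).U (geo.nb (geo.r g)) * (ρ j).U (geo.nb (geo.r g))⁻¹) (v j) = v j := by
          rw [← map_mul, mul_inv_cancel, map_one]; rfl
        exact this
      rw [h3, ← inner_conj_symm, ← map_one (starRingEnd ℂ), ← map_sub, RCLike.norm_conj]
      exact h2) x
  have h4 : Tendsto (fun j => (inner ℂ x (B.Xi (fun g => inner ℂ ((ρ j).U (geo.nb (geo.r g))⁻¹ (v j)) (v j)) x) : ℂ)) atTop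
      (𝓝 (inner ℂ x ((1 : ℂ) • x))) := tendsto_const_nhds.inner h1
  rw [one_smul, re_inner_real] at h4
  refine h4.congr fun j => ?_
  rw [inner_Om_XX]

include hv1 hlim in
theorem tendsto_XX_Om (x : H) : Tendsto (fun j => ‖XX (PM.xi B) (cst (ρ j) (v j) (hv j)) x - tau B (Om geo (ρ j) (v j) (hv j)) x‖)
    atTop (𝓝 0) := by
  have h1 := tendsto_inner_Om B ρ v hv hv1 hlim x
  have h2 : Tendsto (fun j => 2 * (‖x‖ ^ 2 - (inner ℂ (tau B (Om geo (ρ j) (v j) (hv j)) x) (XX (PM.xi B) (cst (ρ j) (v j) (hv j)) x) : ℂ).re))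
      atTop (𝓝 0) := by
    have h3 := ((Complex.continuous_re.tendsto _).comp h1)
    have h4 := (tendsto_const_nhds (x := ‖x‖ ^ 2)).sub h3
    have h5 := h4.const_mul 2
    rw [Complex.ofReal_re, sub_self, mul_zero] at h5
    exact h5
  have h6 : Tendsto (fun j => ‖XX (PM.xi B) (cst (ρ j) (v j) (hv j)) x - tau B (Om geo (ρ j) (v j) (hv j)) x‖ ^ 2) atTop (𝓝 0) := by
    refine squeeze_zero (fun j => by positivity) (fun j => ?_) h2
    refine norm_sub_sq_le ?_ ?_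
    · have := norm_XX (PM.xi B) (cst (geo := geo) (ρ j) (v j) (hv j)) (C := 1) (fun _ => (hv1 j).le) x
      rwa [mass_xi, mul_one, one_mul] at this
    · rw [norm_tau_Om, hv1, one_mul]
  have h7 := h6.sqrt
  rw [Real.sqrt_zero] at h7
  refine h7.congr fun j => Real.sqrt_sq (norm_nonneg _)

include hv1 hlim in
/-- The norms of the elements given by almost invariant vectors tend to one. -/
theorem tendsto_norm_Xm : Tendsto (fun j => ‖(Xm (PM.xi B) (v j) (hv j) : MM B (ρ j))‖) atTop (𝓝 1) := by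
  have := B.nontriv
  obtain ⟨y, hy⟩ := exists_ne (0 : H)
  have hy' : 0 < ‖y‖ := norm_pos_iff.2 hy
  have h1 := ((Complex.continuous_re.tendsto _).comp (tendsto_inner_Om B ρ v hv hv1 hlim y)).div_const (‖y‖ ^ 2)
  rw [Complex.ofReal_re, div_self (by positivity)] at h1
  refine tendsto_of_tendsto_of_tendsto_of_le_of_le h1 tendsto_const_nhds (fun j => ?_) fun j => ?_
  · simp only [Function.comp]
    rw [div_le_iff₀ (by positivity)]
    refine (Complex.re_le_norm _).trans ((norm_inner_le_norm _ _).trans ?_)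
    rw [norm_tau_Om, hv1, one_mul, ← Xm_apply, norm_MM]
    exact le_of_eq (by ring)
  · refine (norm_Xm_le _ _ _).trans ?_
    rw [hv1, mass_xi, mul_one]

end seq

section same

variable {L : Type} [NormedAddCommGroup L] [InnerProductSpace ℂ L] (ρ : ℕ → Rp 𝕊 L) (ρ0 : Rp 𝕊 L) (v : L)

/-- The constant section of an invariant vector. -/
def cS (geo : Geo 𝔾 𝕊 𝕂) (ρ0 : Rp 𝕊 L) (v : L) (hv : ∀ k, ρ0.U k v = v) : Sec geo ρ0 :=
  ⟨fun _ => v, continuous_const, fun _ _ => (hv _).symm⟩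

/-- the strong limit in the identified space -/
theorem tendsto_pushK_XX (hK : ∀ j, ItK 𝕂 (ρ j) ρ0 (ContinuousLinearMap.id ℂ L)) (hv0 : ∀ k, ρ0.U k v = v) (hv1 : ‖v‖ = 1)
    (hv : ∀ j, ∀ k ∈ 𝕂, (ρ j).U k v = v)
    (hlim : ∀ D : Set 𝕊, IsCompact D → ∀ ε : ℝ, 0 < ε → ∀ᶠ j in atTop, ∀ k ∈ D, ‖(ρ j).U k v - v‖ ≤ ε) (x : H) :
    Tendsto (fun j => pushK B (hK j) (XX (PM.xi B) (cst (ρ j) v (hv j)) x)) atTop (𝓝 (tau B (cS geo ρ0 v hv0) x)) := by
  have hlim' : ∀ D : Set 𝕊, IsCompact D → ∀ ε : ℝ, 0 < ε → ∀ᶠ j in atTop, ∀ k ∈ D, ‖(inner ℂ ((ρ j).U k v) v : ℂ) - 1‖ ≤ ε := by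
    intro D hD ε hε
    refine (hlim D hD ε hε).mono fun j hj k hk => ?_
    have h1 : (inner ℂ ((ρ j).U k v) v : ℂ) - 1 = inner ℂ ((ρ j).U k v - v) v := by
      rw [inner_sub_left, re_inner_real v, hv1]
      simp
    rw [h1]
    refine (norm_inner_le_norm _ _).trans ?_
    rw [hv1, mul_one]
    exact hj k hk
  have h1 := tendsto_inner_Om B ρ (fun _ => v) hv (fun _ => hv1) hlim' x
  have hcs : ‖tau B (cS geo ρ0 v hv0) x‖ = ‖x‖ := by
    have h2 := norm_tau_Om B ρ0 v (fun k _ => hv0 k) x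
    rw [hv1, one_mul] at h2
    rw [← h2]
    congr 3
    refine Subtype.ext (funext fun g => ?_)
    rw [Om_apply, hv0]
    rfl
  have hin : ∀ j, (inner ℂ (tau B (cS geo ρ0 v hv0) x) (pushK B (hK j) (XX (PM.xi B) (cst (ρ j) v (hv j)) x)) : ℂ) =
      inner ℂ (tau B (Om geo (ρ j) v (hv j)) x) (XX (PM.xi B) (cst (ρ j) v (hv j)) x) := by
    intro j
    have hK' : ItK 𝕂 ρ0 (ρ j) (ContinuousLinearMap.id ℂ L) := fun k hk w => (hK j k hk w).symm
    have h2 := inner_mulF B (Fd.ofK (geo := geo) hK') (Fd.ofK (hK j)) (fun g w w' => by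
      change inner ℂ ((ρ j).U (geo.nb (geo.r g))⁻¹ (ρ0.U (geo.nb (geo.r g)) w)) w' =
        (inner ℂ w (ρ0.U (geo.nb (geo.r g))⁻¹ ((ρ j).U (geo.nb (geo.r g)) w')) : ℂ)
      have e1 : ∀ (ρ : Rp 𝕊 L) (h : 𝕊) (a b : L), (inner ℂ (ρ.U h⁻¹ a) b : ℂ) = inner ℂ a (ρ.U h b) := by
        intro ρ h a b
        rw [← LinearIsometryEquiv.inner_map_map (ρ.U h)]
        congr 1
        have : (ρ.U h * ρ.U h⁻¹) a = a := by rw [← map_mul, mul_inv_cancel, map_one]; rfl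
        exact this
      have e2 : ∀ (ρ : Rp 𝕊 L) (h : 𝕊) (a b : L), (inner ℂ (ρ.U h a) b : ℂ) = inner ℂ a (ρ.U h⁻¹ b) := by
        intro ρ h a b
        rw [← LinearIsometryEquiv.inner_map_map (ρ.U h) a]
        congr 1
        have : (ρ.U h * ρ.U h⁻¹) b = b := by rw [← map_mul, mul_inv_cancel, map_one]; rfl
        exact this.symm
      rw [e1, ← e2]) (tau B (cS geo ρ0 v hv0) x) (XX (PM.xi B) (cst (ρ j) v (hv j)) x)
    rw [show pushK B (hK j) (XX (PM.xi B) (cst (ρ j) v (hv j)) x) = mulF B (Fd.ofK (hK j)) (XX (PM.xi B) (cst (ρ j) v (hv j)) x) from rfl,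
      ← h2, mulF_tau]
    congr 3
    refine Subtype.ext (funext fun g => ?_)
    change (ρ j).U (geo.nb (geo.r g))⁻¹ (ρ0.U (geo.nb (geo.r g)) v) = _
    rw [hv0]
    rfl
  simp only [← hin] at h1
  have h2 : Tendsto (fun j => 2 * (‖x‖ ^ 2 - (inner ℂ (tau B (cS geo ρ0 v hv0) x)
      (pushK B (hK j) (XX (PM.xi B) (cst (ρ j) v (hv j)) x)) : ℂ).re)) atTop (𝓝 0) := by
    have h3 := ((Complex.continuous_re.tendsto _).comp h1)
    have h4 := (tendsto_const_nhds (x := ‖x‖ ^ 2)).sub h3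
    have h5 := h4.const_mul 2
    rw [Complex.ofReal_re, sub_self, mul_zero] at h5
    exact h5
  have h6 : Tendsto (fun j => ‖pushK B (hK j) (XX (PM.xi B) (cst (ρ j) v (hv j)) x) - tau B (cS geo ρ0 v hv0) x‖ ^ 2) atTop (𝓝 0) := by
    refine squeeze_zero (fun j => by positivity) (fun j => ?_) h2
    refine norm_sub_sq_le ?_ hcs.le
    rw [pushK_isom B (hK j) (fun x => rfl)]
    have := norm_XX (PM.xi B) (cst (geo := geo) (ρ j) v (hv j)) (C := 1) (fun _ => hv1.le) x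
    rwa [mass_xi, mul_one, one_mul] at this
  rw [tendsto_iff_norm_sub_tendsto_zero]
  have h7 := h6.sqrt
  rw [Real.sqrt_zero] at h7
  refine h7.congr fun j => Real.sqrt_sq (norm_nonneg _)

end same

end N

end Pool.Agent.Helper16.FP
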